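import Pool.Agent.H83.GP.It

/-!
# MP_66e4cf_lc: conditions with the same stems

Among `N` conditions with the same stems (and at most `n` nontrivial coordinates) at least `N / 2^n` have a
common lower bound.
-/

set_option autoImplicit false
set_option linter.unusedVariables false
set_option linter.unusedSectionVars false

universe u

open Pool.Agent.H17.Omega Pool.Agent.H17.GP

namespace Pool.Agent.H83.GP

variable {t : Tm} {M : Set ZFSet.{u}} {p q r : Cn.{u}} {ξ η ζ : Ordinal.{u}} {d : ℕ × Finset ZFSet.{u}}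

/-- Nontrivial coordinates have nontrivial stems. -/
theorem stem_ne (ht : t.Ax) (hp : p ∈ SS t M ξ) (h : p.f η ≠ (0, ∅)) : (p.f η).1 ≠ 0 := by
  intro h0
  apply h
  have h1 := (mem_SS.1 hp η h).2.1
  rw [h0, ht.cap0] at h1
  exact Prod.ext h0 (Finset.card_eq_zero.1 (Nat.le_zero.1 h1))

theorem f_eq_of_stem (ht : t.Ax) (hp : p ∈ SS t M ξ) (h : (p.f η).1 = 0) : p.f η = (0, ∅) := by
  by_contra h1
  exact stem_ne ht hp h1 h

/-- Extend a condition so that it decides finitely many values of finitely many names. -/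
theorem exists_decide (ht : t.Ax) (F : Finset ZFSet.{u}) (hF : ∀ T ∈ F, IsNm t (SS t M η) T) (L : ℕ)
    (hq : q ∈ SS t M η) : ∃ r ∈ SS t M η, r.Le t q ∧ ∀ T ∈ F, ∀ i < L, ∃ j, Tr T i j r := by
  classical
  induction F using Finset.induction with
  | empty => exact ⟨q, hq, Cn.Le.refl ht _, by simp⟩
  | insert T F hT ih =>
    obtain ⟨r, hr, h1, h2⟩ := ih (fun T' h => hF T' (Finset.mem_insert_of_mem h))
    have hTn := hF T (Finset.mem_insert_self _ _)
    have key : ∀ L, ∃ r' ∈ SS t M η, r'.Le t r ∧ ∀ i < L, ∃ j, Tr T i j r' := by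
      intro L
      induction L with
      | zero => exact ⟨r, hr, Cn.Le.refl ht _, by simp⟩
      | succ L ih =>
        obtain ⟨r', hr', h3, h4⟩ := ih
        obtain ⟨r2, hr2, h5, h6⟩ := hTn.tot L r' hr'
        refine ⟨r2, hr2, h5.trans ht h3, fun i hi => ?_⟩
        rcases Nat.lt_succ_iff_lt_or_eq.1 hi with h7 | rfl
        · obtain ⟨j, hj⟩ := h4 i h7
          exact ⟨j, hTn.down i j r' hr' r2 hr2 h5 hj⟩
        · exact h6
    obtain ⟨r', hr', h3, h4⟩ := key L
    refine ⟨r', hr', h3.trans ht h1, fun T' h5 i hi => ?_⟩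
    rcases Finset.mem_insert.1 h5 with rfl | h6
    · exact h4 i hi
    · obtain ⟨j, hj⟩ := h2 T' h6 i hi
      exact ⟨j, (hF T' h5).down i j r hr r' hr' h3 hj⟩

open Classical in
/-- the value of a name, as far as it is decided by the condition -/
noncomputable def xval (T : ZFSet.{u}) (q : Cn.{u}) : ℕ → ℕ := fun i =>
  if h : ∃ j, Tr T i j q then h.choose else 0

theorem xval_eq {T : ZFSet.{u}} (hT : IsNm t (SS t M η) T) (hq : q ∈ SS t M η) {i j : ℕ} (h : Tr T i j q) :
    xval T q i = j := by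
  have h1 : ∃ j, Tr T i j q := ⟨j, h⟩
  unfold xval
  rw [dif_pos h1]
  exact hT.uni i _ _ q hq h1.choose_spec h

theorem AP (ht : t.Ax) (n : ℕ) : ∀ (ξ : Ordinal.{u}) (p : ℕ → Cn.{u}) (I : Finset ℕ),
    (∀ i ∈ I, p i ∈ SS t M ξ) → (∀ i ∈ I, ∀ j ∈ I, ∀ η, ((p i).f η).1 = ((p j).f η).1) →
    (∀ i ∈ I, {η | ((p i).f η).1 ≠ 0}.ncard ≤ n) →
    ∃ J ⊆ I, I.card ≤ 2 ^ n * J.card ∧ ∃ q ∈ SS t M ξ, ∀ i ∈ J, q.Le t (p i) := by
  classical
  induction n with
  | zero =>
    intro ξ p I hp hs hn
    refine ⟨I, subset_rfl, by simp, Cn.one, one_mem_SS, fun i hi => ?_⟩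
    have h1 := hn i hi
    have hfin : {η | ((p i).f η).1 ≠ 0}.Finite := (p i).fin.subset fun x hx => by
      intro h; apply hx; rw [h]
    rw [Nat.le_zero, Set.ncard_eq_zero hfin] at h1
    have h2 : p i = Cn.one := by
      apply Cn.ext'
      intro x
      refine f_eq_of_stem ht (hp i hi) ?_
      by_contra h3
      have : x ∈ {η | ((p i).f η).1 ≠ 0} := h3
      rw [h1] at this
      exact this
    rw [h2]
    exact Cn.Le.refl ht _
  | succ n ih =>
    intro ξ p I hp hs hn
    rcases I.eq_empty_or_nonempty with rfl | ⟨i0, hi0⟩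
    · exact ⟨∅, subset_rfl, by simp, Cn.one, one_mem_SS, by simp⟩
    have hfin : ∀ i, {η | ((p i).f η).1 ≠ 0}.Finite := fun i => (p i).fin.subset fun x hx => by
      intro h; apply hx; rw [h]
    rcases ({η | ((p i0).f η).1 ≠ 0}).eq_empty_or_nonempty with h0 | h0
    · -- all conditions are trivial
      refine ⟨I, subset_rfl, ?_, Cn.one, one_mem_SS, fun i hi => ?_⟩
      · have := Nat.one_le_two_pow (n := n + 1)
        nlinarith
      · have h2 : p i = Cn.one := by
          apply Cn.ext'
          intro x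
          refine f_eq_of_stem ht (hp i hi) ?_
          by_contra h3
          have : x ∈ {η | ((p i0).f η).1 ≠ 0} := by
            show ((p i0).f x).1 ≠ 0
            rw [hs i0 hi0 i hi]; exact h3
          rw [h0] at this
          exact this
        rw [h2]
        exact Cn.Le.refl ht _
    -- the last coordinate
    obtain ⟨η, hη, hmax⟩ : ∃ η ∈ {η | ((p i0).f η).1 ≠ 0}, ∀ x ∈ {η | ((p i0).f η).1 ≠ 0}, x ≤ η :=
      Set.exists_max_image _ id (hfin i0) h0
    have hmax' : ∀ i ∈ I, ∀ x, η < x → (p i).f x = (0, ∅) := by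
      intro i hi x hx
      refine f_eq_of_stem ht (hp i hi) ?_
      by_contra h3
      have h4 : ((p i0).f x).1 ≠ 0 := by rw [hs i0 hi0 i hi]; exact h3
      exact absurd (hmax x h4) (not_le.2 hx)
    have hηξ : η < ξ := by
      refine SS_supp (hp i0 hi0) ?_
      intro h; apply hη; rw [h]
    let m := ((p i0).f η).1
    have hm : ∀ i ∈ I, ((p i).f η).1 = m := fun i hi => hs i hi i0 hi0 η
    -- below `η`
    obtain ⟨J', hJ', hcard', q', hq', hle'⟩ := ih η (fun i => (p i).res η) I
      (fun i hi => res_mem_SS (hp i hi))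
      (fun i hi j hj x => by
        by_cases hx : x < η
        · rw [Cn.res_lt hx, Cn.res_lt hx]; exact hs i hi j hj x
        · rw [Cn.res_ge hx, Cn.res_ge hx])
      (fun i hi => by
        have h1 := hn i hi
        have h2 : {x | (((p i).res η).f x).1 ≠ 0} ⊆ {x | ((p i).f x).1 ≠ 0} \ {η} := by
          intro x hx
          have hxη : x < η := by
            by_contra h
            simp only [Set.mem_setOf_eq, Cn.res_ge h] at hx
            exact hx rfl
          simp only [Set.mem_setOf_eq, Cn.res_lt hxη] at hx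
          exact ⟨hx, hxη.ne⟩
        have h3 : η ∈ {x | ((p i).f x).1 ≠ 0} := by
          show ((p i).f η).1 ≠ 0
          rw [hm i hi]; exact hη
        have h4 := Set.ncard_le_ncard h2 ((hfin i).subset Set.diff_subset)
        rw [Set.ncard_diff_singleton_of_mem h3] at h4
        omega)
    -- amalgamation at `η`
    obtain ⟨L, hL⟩ := ht.amal m I.card (I.card * t.cap m)
    let F : Finset ZFSet.{u} := J'.biUnion fun i => ((p i).f η).2
    have hV : ∀ i ∈ I, Vd t M (SS t M η) ((p i).res η) ((p i).f η) := by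
      intro i hi
      refine (mem_SS.1 (hp i hi) η ?_).2
      intro h
      apply hη
      show m = 0
      rw [← hm i hi, h]
    have hF : ∀ T ∈ F, IsNm t (SS t M η) T := by
      intro T hT
      obtain ⟨i, hi, h1⟩ := Finset.mem_biUnion.1 hT
      exact ((hV i (hJ' hi)).2 T h1).2.1
    obtain ⟨q2, hq2, h2, h3⟩ := exists_decide ht F hF L hq'
    obtain ⟨J, hJ, hcard, m', hm', -, hm'2, hm'3, hm'4, -⟩ := hL J'
      (fun i => (((p i).f η).2).image (fun T => xval T q2)) (fun _ => 0)
      (Finset.card_le_card hJ')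
      (fun i hi => Finset.card_image_le.trans (by
        have := (hV i (hJ' hi)).1
        rwa [hm i (hJ' hi)] at this))
      (fun i hi x hx k hk => by
        obtain ⟨T, hT, rfl⟩ := Finset.mem_image.1 hx
        have h4 := (hV i (hJ' hi)).2 T hT
        obtain ⟨j, hj, hj'⟩ := h4.2.2 k (by rw [hm i (hJ' hi)]; exact hk)
        have h5 : Tr T k j q2 := h4.2.1.down k j _ (res_mem_SS (hp i (hJ' hi))) q2 hq2
          (h2.trans ht (hle' i hi)) hj'
        rw [xval_eq h4.2.1 hq2 h5, ← hm i (hJ' hi)]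
        exact hj)
    have hJI : J ⊆ I := hJ.trans hJ'
    let d : ℕ × Finset ZFSet.{u} := (m', J.biUnion fun i => ((p i).f η).2)
    have hd : Vd t M (SS t M η) q2 d := by
      constructor
      · show (J.biUnion fun i => ((p i).f η).2).card ≤ t.cap m'
        have h4 : (J.biUnion fun i => ((p i).f η).2).card ≤ J.card * t.cap m := by
          refine Finset.card_biUnion_le_card_mul _ _ _ fun i hi => ?_
          have := (hV i (hJI hi)).1
          rwa [hm i (hJI hi)] at this
        have h5 : J.card * t.cap m ≤ I.card * t.cap m := Nat.mul_le_mul_right _ (Finset.card_le_card hJI)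
        omega
      · intro T hT
        obtain ⟨i, hi, h1⟩ := Finset.mem_biUnion.1 hT
        have h4 := (hV i (hJI hi)).2 T h1
        refine ⟨h4.1, h4.2.1, fun k hk => ?_⟩
        obtain ⟨j, hj⟩ := h3 T (Finset.mem_biUnion.2 ⟨i, hJ hi, h1⟩) k (lt_of_lt_of_le hk hm'2)
        refine ⟨j, ?_, hj⟩
        have h5 := hm'4 i hi _ (Finset.mem_image_of_mem _ h1) k hk
        rwa [xval_eq h4.2.1 hq2 hj] at h5
    have hmix := mix_mem_SS (p := Cn.one) ht hq2 hηξ one_mem_SS (by
      intro x
      have : (Cn.one : Cn.{u}).res η = Cn.one := res_of_SS one_mem_SS (M := M) (t := t)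
      rw [this]
      exact Cn.le_one ht _ x) hd (ht.top _) (Finset.empty_subset _)
    refine ⟨J, hJI, ?_, _, hmix.1, fun i hi x => ?_⟩
    · rw [pow_succ]
      calc I.card ≤ 2 ^ n * J'.card := hcard'
        _ ≤ 2 ^ n * (2 * J.card) := Nat.mul_le_mul_left _ hcard
        _ = 2 ^ n * 2 * J.card := by ring
    · rcases lt_trichotomy x η with h1 | h1 | h1
      · rw [Cn.mix_lt h1]
        have := (h2.trans ht (hle' i (hJ hi))) x
        rwa [Cn.res_lt h1] at this
      · subst h1
        rw [Cn.mix_self]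
        refine ⟨?_, ?_⟩
        · rw [hm i (hJI hi)]; exact hm'
        · exact Finset.subset_biUnion_of_mem (fun i => ((p i).f x).2) hi
      · rw [Cn.mix_gt h1, hmax' i (hJI hi) x h1]
        exact ⟨ht.top _, Finset.empty_subset _⟩

end Pool.Agent.H83.GP
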