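import Pool.Agent.H83.GP.Defs

/-!
# MP_66e4cf_lc: the iteration, basic facts (restriction, amalgamation)
-/

set_option autoImplicit false
set_option linter.unusedVariables false
set_option linter.unusedSectionVars false

universe u

open Pool.Agent.H17.Omega Pool.Agent.H17.GP

namespace Pool.Agent.H83.GP

variable {t : Tm} {M : Set ZFSet.{u}} {p q r : Cn.{u}} {ξ η ζ : Ordinal.{u}} {d : ℕ × Finset ZFSet.{u}}

/-! ## The functions -/

theorem Cn.one_f : (Cn.one : Cn.{u}).f ξ = (0, ∅) := rfl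

theorem Cn.res_lt (h : ξ < η) : (p.res η).f ξ = p.f ξ := if_pos h

theorem Cn.res_ge (h : ¬ ξ < η) : (p.res η).f ξ = (0, ∅) := if_neg h

theorem Cn.mix_lt (h : ξ < η) : (q.mix η d p).f ξ = q.f ξ := if_pos h

theorem Cn.mix_self : (q.mix η d p).f η = d := by
  show (if η < η then q.f η else if η = η then d else p.f η) = d
  simp

theorem Cn.mix_gt (h : η < ξ) : (q.mix η d p).f ξ = p.f ξ := by
  show (if ξ < η then q.f ξ else if ξ = η then d else p.f ξ) = p.f ξ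
  simp [not_lt.2 h.le, h.ne']

theorem Cn.cat_lt (h : ξ < η) : (q.cat η p).f ξ = q.f ξ := if_pos h

theorem Cn.cat_ge (h : ¬ ξ < η) : (q.cat η p).f ξ = p.f ξ := if_neg h

theorem Cn.res_res : (p.res ξ).res η = p.res (min ξ η) := by
  apply Cn.ext'
  intro x
  by_cases h1 : x < η
  · rw [Cn.res_lt h1]
    by_cases h2 : x < ξ
    · rw [Cn.res_lt h2, Cn.res_lt (lt_min h2 h1)]
    · rw [Cn.res_ge h2, Cn.res_ge fun h => h2 (h.trans_le (min_le_left _ _))]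
  · rw [Cn.res_ge h1, Cn.res_ge fun h => h1 (h.trans_le (min_le_right _ _))]

theorem Cn.res_res_le (h : ξ ≤ η) : (p.res η).res ξ = p.res ξ := by
  rw [Cn.res_res, min_eq_right h]

theorem Cn.res_res_ge (h : ξ ≤ η) : (p.res ξ).res η = p.res ξ := by
  rw [Cn.res_res, min_eq_left h]

theorem Cn.mix_res_le (h : ξ ≤ η) : (q.mix η d p).res ξ = q.res ξ := by
  apply Cn.ext'
  intro x
  by_cases h1 : x < ξ
  · rw [Cn.res_lt h1, Cn.res_lt h1, Cn.mix_lt (h1.trans_le h)]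
  · rw [Cn.res_ge h1, Cn.res_ge h1]

theorem Cn.cat_res_le (h : ξ ≤ η) : (q.cat η p).res ξ = q.res ξ := by
  apply Cn.ext'
  intro x
  by_cases h1 : x < ξ
  · rw [Cn.res_lt h1, Cn.res_lt h1, Cn.cat_lt (h1.trans_le h)]
  · rw [Cn.res_ge h1, Cn.res_ge h1]

theorem Cn.res_cat : (p.res η).cat η p = p := by
  apply Cn.ext'
  intro x
  by_cases h1 : x < η
  · rw [Cn.cat_lt h1, Cn.res_lt h1]
  · rw [Cn.cat_ge h1]

/-! ## The order -/

section

variable (ht : t.Ax)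

include ht

theorem Cn.Le.refl (p : Cn.{u}) : p.Le t p := fun ξ => ⟨ht.refl _, subset_rfl⟩

theorem Cn.Le.trans (h1 : p.Le t q) (h2 : q.Le t r) : p.Le t r := fun ξ =>
  ⟨ht.trans _ _ _ (h1 ξ).1 (h2 ξ).1, (h2 ξ).2.trans (h1 ξ).2⟩

theorem Cn.Le.antisymm (h1 : p.Le t q) (h2 : q.Le t p) : p = q := by
  apply Cn.ext'
  intro ξ
  exact Prod.ext (ht.anti _ _ (h1 ξ).1 (h2 ξ).1) (Finset.Subset.antisymm (h2 ξ).2 (h1 ξ).2)

theorem Cn.le_one (p : Cn.{u}) : p.Le t Cn.one := fun ξ => ⟨ht.top _, Finset.empty_subset _⟩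

theorem Cn.le_res (p : Cn.{u}) (η : Ordinal.{u}) : p.Le t (p.res η) := by
  intro ξ
  by_cases h : ξ < η
  · rw [Cn.res_lt h]; exact ⟨ht.refl _, subset_rfl⟩
  · rw [Cn.res_ge h]; exact ⟨ht.top _, Finset.empty_subset _⟩

theorem Cn.Le.res (h : p.Le t q) (η : Ordinal.{u}) : (p.res η).Le t (q.res η) := by
  intro ξ
  by_cases h1 : ξ < η
  · rw [Cn.res_lt h1, Cn.res_lt h1]; exact h ξ
  · rw [Cn.res_ge h1, Cn.res_ge h1]; exact ⟨ht.refl _, subset_rfl⟩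

theorem Cn.Le.res' (h : p.Le t q) (η : Ordinal.{u}) : p.Le t (q.res η) := h.trans ht (Cn.le_res ht q η)

theorem Cn.le_cat_left (hq : ∀ x, ¬ x < η → q.f x = (0, ∅)) : (q.cat η p).Le t q := by
  intro x
  by_cases h : x < η
  · rw [Cn.cat_lt h]; exact ⟨ht.refl _, subset_rfl⟩
  · rw [hq x h]; exact ⟨ht.top _, Finset.empty_subset _⟩

theorem Cn.le_cat_right (h : q.Le t (p.res η)) : (q.cat η p).Le t p := by
  intro x
  by_cases h1 : x < η
  · rw [Cn.cat_lt h1]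
    have := h x
    rwa [Cn.res_lt h1] at this
  · rw [Cn.cat_ge h1]; exact ⟨ht.refl _, subset_rfl⟩

end

/-! ## The conditions -/

theorem SS_supp (hp : p ∈ SS t M ξ) (h : p.f η ≠ (0, ∅)) : η < ξ := (mem_SS.1 hp η h).1

theorem SS_ge (hp : p ∈ SS t M ξ) (h : ¬ η < ξ) : p.f η = (0, ∅) := by
  by_contra h1
  exact h (SS_supp hp h1)

theorem SS_mono (h : ξ ≤ η) : SS t M ξ ⊆ SS t M η := by
  intro p hp
  rw [mem_SS] at hp ⊢
  exact fun x hx => ⟨(hp x hx).1.trans_le h, (hp x hx).2⟩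

theorem one_mem_SS : Cn.one ∈ SS t M ξ := mem_SS.2 fun η h => (h rfl).elim

theorem res_mem_SS (hp : p ∈ SS t M ξ) : p.res η ∈ SS t M η := by
  rw [mem_SS]
  intro x hx
  have h1 : x < η := by
    by_contra h
    exact hx (Cn.res_ge h)
  rw [Cn.res_lt h1] at hx ⊢
  rw [Cn.res_res_le h1.le]
  exact ⟨h1, (mem_SS.1 hp x hx).2⟩

theorem res_of_SS (hp : p ∈ SS t M ξ) : p.res ξ = p := by
  apply Cn.ext'
  intro x
  by_cases h : x < ξ
  · exact Cn.res_lt h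
  · rw [Cn.res_ge h, SS_ge hp h]

theorem mem_SS_of_res (hp : p ∈ SS t M ξ) (h : p.res η = p) : p ∈ SS t M η := by
  rw [← h]; exact res_mem_SS hp

/-- Validity is preserved by strengthening. -/
theorem Vd.anti (hp : p ∈ SS t M η) (hq : q ∈ SS t M η) (h : q.Le t p) (hv : Vd t M (SS t M η) p d) :
    Vd t M (SS t M η) q d := by
  refine ⟨hv.1, fun T hT => ?_⟩
  obtain ⟨h1, h2, h3⟩ := hv.2 T hT
  refine ⟨h1, h2, fun i hi => ?_⟩
  obtain ⟨j, hj, hj'⟩ := h3 i hi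
  exact ⟨j, hj, h2.down i j p hp q hq h hj'⟩

/-- Criterion for conditions. -/
theorem mem_SS_of {s : Cn.{u}} (ht : t.Ax) (h : ∀ y, s.f y ≠ (0, ∅) → y < ξ ∧ (s.res y ∈ SS t M y →
    (∃ p ∈ SS t M ξ, s.f y = p.f y ∧ (s.res y).Le t (p.res y)) ∨
      Vd t M (SS t M y) (s.res y) (s.f y))) : s ∈ SS t M ξ := by
  have key : ∀ y, s.res y ∈ SS t M y := by
    intro y
    induction y using WellFoundedLT.induction with
    | ind y ih =>
      rw [mem_SS]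
      intro x hx
      have hxy : x < y := by
        by_contra h
        exact hx (Cn.res_ge h)
      refine ⟨hxy, ?_⟩
      rw [Cn.res_lt hxy] at hx ⊢
      rw [Cn.res_res_le hxy.le]
      rcases (h x hx).2 (ih x hxy) with ⟨p, hp, h1, h2⟩ | h1
      · rw [h1]
        refine Vd.anti (res_mem_SS hp) (ih x hxy) h2 ?_
        exact (mem_SS.1 hp x (h1 ▸ hx)).2
      · exact h1
  rw [mem_SS]
  intro x hx
  refine ⟨(h x hx).1, ?_⟩
  rcases (h x hx).2 (key x) with ⟨p, hp, h1, h2⟩ | h1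
  · rw [h1]
    exact Vd.anti (res_mem_SS hp) (key x) h2 (mem_SS.1 hp x (h1 ▸ hx)).2
  · exact h1

/-- Amalgamation: `q` below `η`, `p` from `η` on. -/
theorem cat_mem_SS (ht : t.Ax) (hq : q ∈ SS t M η) (hη : η ≤ ξ) (hp : p ∈ SS t M ξ)
    (h : q.Le t (p.res η)) : q.cat η p ∈ SS t M ξ := by
  refine mem_SS_of ht fun y hy => ?_
  by_cases h1 : y < η
  · refine ⟨h1.trans_le hη, fun _ => Or.inl ⟨q, SS_mono hη hq, Cn.cat_lt h1, ?_⟩⟩
    rw [Cn.cat_res_le h1.le]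
    exact Cn.Le.refl ht _
  · rw [Cn.cat_ge h1] at hy
    refine ⟨SS_supp hp hy, fun _ => Or.inl ⟨p, hp, Cn.cat_ge h1, ?_⟩⟩
    exact (Cn.le_cat_right ht h).res ht y

/-- Amalgamation with a new value at `η`. -/
theorem mix_mem_SS (ht : t.Ax) (hq : q ∈ SS t M η) (hη : η < ξ) (hp : p ∈ SS t M ξ)
    (h : q.Le t (p.res η)) (hd : Vd t M (SS t M η) q d) (hd1 : t.le d.1 (p.f η).1)
    (hd2 : (p.f η).2 ⊆ d.2) : q.mix η d p ∈ SS t M ξ ∧ (q.mix η d p).Le t p := by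
  have hle : (q.mix η d p).Le t p := by
    intro x
    rcases lt_trichotomy x η with h1 | h1 | h1
    · rw [Cn.mix_lt h1]
      have := h x
      rwa [Cn.res_lt h1] at this
    · subst h1
      rw [Cn.mix_self]; exact ⟨hd1, hd2⟩
    · rw [Cn.mix_gt h1]; exact ⟨ht.refl _, subset_rfl⟩
  refine ⟨mem_SS_of ht fun y hy => ?_, hle⟩
  rcases lt_trichotomy y η with h1 | h1 | h1
  · refine ⟨h1.trans hη, fun _ => Or.inl ⟨q, SS_mono hη.le hq, Cn.mix_lt h1, ?_⟩⟩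
    rw [Cn.mix_res_le h1.le]
    exact Cn.Le.refl ht _
  · subst h1
    refine ⟨hη, fun _ => Or.inr ?_⟩
    rw [Cn.mix_self, Cn.mix_res_le le_rfl, res_of_SS hq]
    exact hd
  · rw [Cn.mix_gt h1] at hy
    exact ⟨SS_supp hp hy, fun _ => Or.inl ⟨p, hp, Cn.mix_gt h1, hle.res ht y⟩⟩

end Pool.Agent.H83.GP
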