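import Pool.Agent.H52.GP.SetG
import Pool.Agent.H17.GP.RlC

/-!
# MP_66e4cf_lc: forcing notions that are countable unions of pieces with large linked parts

`Pcs`: `P` is the union of the pieces `Sn n` (`n ∈ ω`, definable in `M`), and there are `k n` such that among `N`
conditions of the piece `n` at least `N / k n` have a common lower bound.

* `slal_of`: no slalom of the extension captures the reals of `M`;
* `bdd_of`: sequences of ordinals below `ω₁` are bounded.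
-/

set_option autoImplicit false
set_option linter.unusedVariables false
set_option linter.unusedSectionVars false

universe u

open Pool.Agent.H17.Omega Pool.Agent.H17.Omega.CTM Pool.Agent.H17.GP Pool.Agent.H52.GX Pool.Agent.H52.GC
  Pool.Agent.H52.GP

namespace Pool.Agent.H83.GP

variable {M : Set ZFSet.{u}} {P R : ZFSet.{u}} {g : Set ZFSet.{u}}

/-- `P` is a countable union (in `M`) of pieces with large linked parts. -/
structure Pcs (hM : CTM M) (P R : ZFSet.{u}) (Sn : M → M → Prop) : Prop where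
  dfn : hM.Dfn (fun v : Fin 2 → M => Sn (v 0) (v 1))
  cov : ∀ z : M, z.1 ∈ P → ∃ n : ℕ, Sn (nz hM n) z
  frac : ∀ n : ℕ, ∃ k : ℕ, ∀ (p : ℕ → M) (I : Finset ℕ), (∀ i ∈ I, (p i).1 ∈ P ∧ Sn (nz hM n) (p i)) →
    ∃ J ⊆ I, I.card ≤ k * J.card ∧ ∃ r ∈ P, ∀ i ∈ J, ZFSet.pair r (p i).1 ∈ R

/-- `z` forces that `j` is one of the first `b m` elements of the slalom with the name `ν` at `m` -/
def Frc (ν R b z m j : M) : Prop := ∀ z' v x : M, ZFSet.pair z'.1 z.1 ∈ R.1 → x.1 = ZFSet.pair m.1 v.1 →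
  ZFSet.pair x.1 z'.1 ∈ ν.1 → ∃ i : ℕ, i < rlD b.1 (natD m.1) ∧ i < lenN (natD v.1) ∧ getN (natD v.1) i = natD j.1

theorem Frc.dfn (hM : CTM M) (ν R b : M) : hM.Dfn (fun v : Fin 3 → M => Frc ν R b (v 0) (v 1) (v 2)) := by
  unfold Frc
  refine Dfn.all (Dfn.all (Dfn.all (Dfn.imp (Dfn.pairMem (DT.var _) (DT.var _) (DT.const _)) (Dfn.imp
    (Dfn.isPair (DT.var _) (DT.var _) (DT.var _)) (Dfn.imp (Dfn.pairMem (DT.var _) (DT.var _) (DT.const _)) ?_)))))
  refine Dfn.exN (P := fun v i => i < rlD b.1 (natD (v 1).1) ∧ i < lenN (natD (v 4).1) ∧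
    getN (natD (v 4).1) i = natD (v 2).1) ?_
  refine Dfn.and (Dfn.ltN (DN.var _) (DN.app (DR.ofDT (DT.const b)) (DN.var _))) (Dfn.and
    (Dfn.ltN (DN.var _) (DN.primrec prim_lenN (DN.var _))) (Dfn.eqN (DN.primrec₂ prim_getN (DN.var _)
      (DN.var _)) (DN.var _)))

theorem slal_of (hM : CTM M) (hF : Fr M P R g) {Sn : M → M → Prop} (hS : Pcs hM P R Sn) :
    ∀ b ∈ Rl M, ∀ s ∈ Rl (ExtZ M g), (∀ m, (dl (s m)).length ≤ b m) →
      ∃ c ∈ Rl M, ∀ n, ∃ m, n ≤ m ∧ c m ∉ dl (s m) := by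
  classical
  intro b hb s hs hbs
  have hP := hF.hP
  have hR := hF.hR
  obtain ⟨ν, hν, hn, hval⟩ := hF.exists_seqNm hM.omZ_mem (s := fun n => natZ (s n)) (fun n => natZ_mem_omZ _) hs
  let νM : M := ⟨ν, hν⟩
  let RM : M := ⟨R, hR⟩
  let PM : M := ⟨P, hP⟩
  let bM : M := ⟨rz b, hb⟩
  let Bad : ℕ → ℕ → Prop := fun m j => ∃ i, i ≤ m ∧ ∃ z : M, z.1 ∈ PM.1 ∧ Sn (nz hM i) z ∧
    Frc νM RM bM z (nz hM m) (nz hM j)
  -- finiteness
  have hfin : ∀ m, ∃ j, ¬ Bad m j := by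
    intro m
    have h1 : ∀ i, {j | ∃ z : M, z.1 ∈ P ∧ Sn (nz hM i) z ∧ Frc νM RM bM z (nz hM m) (nz hM j)}.Finite := by
      intro i
      obtain ⟨k, hk⟩ := hS.frac i
      by_contra hinf
      obtain ⟨I, hI, hIc⟩ := (Set.not_finite.1 hinf : Set.Infinite _).exists_subset_card_eq (k * b m + 1)
      have hI' : ∀ j ∈ I, ∃ z : M, z.1 ∈ P ∧ Sn (nz hM i) z ∧ Frc νM RM bM z (nz hM m) (nz hM j) :=
        fun j hj => hI hj
      haveI : Nonempty M := ⟨PM⟩
      choose! z hz1 hz2 hz3 using hI'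
      obtain ⟨J, hJ, hJc, r, hr, hrz⟩ := hk z I fun j hj => ⟨hz1 j hj, hz2 j hj⟩
      obtain ⟨r', hr', a, ha⟩ := hn.tot m r hr
      obtain ⟨n', a', p', ha', hp', he⟩ := hn.mem _ ha
      have haM : a ∈ M := (hM.of_pair_mem (hM.of_pair_mem (hM.mem_of_mem hν ha)).1).2
      have hr'M : r' ∈ M := (hM.of_pair_mem (hM.mem_of_mem hν ha)).2
      have hcard : J.card ≤ b m := by
        have h2 : ∀ j ∈ J, ∃ i, i < b m ∧ getN (natD a) i = j := by
          intro j hj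
          have h3 := hz3 j (hJ hj) ⟨r', hr'M⟩ ⟨a, haM⟩ ⟨ZFSet.pair (natZ m) a, hM.pair_mem (hM.natZ_mem_N m) haM⟩
            (hF.po.trans _ _ _ hr' (hrz j hj)) rfl ha
          obtain ⟨i, h4, -, h5⟩ := h3
          refine ⟨i, ?_, ?_⟩
          · have h6 : i < rlD (rz b) (natD (natZ.{u} m)) := h4
            rwa [rlD_rz, natD_natZ] at h6
          · have h6 : getN (natD a) i = natD (natZ.{u} j) := h5
            rwa [natD_natZ] at h6
        have h3 : J ⊆ (Finset.range (b m)).image (fun i => getN (natD a) i) := by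
          intro j hj
          obtain ⟨i, h4, h5⟩ := h2 j hj
          exact Finset.mem_image.2 ⟨i, Finset.mem_range.2 h4, h5⟩
        exact (Finset.card_le_card h3).trans (Finset.card_image_le.trans (by simp))
      have : k * J.card ≤ k * b m := Nat.mul_le_mul_left _ hcard
      omega
    have h2 : {j | Bad m j}.Finite := by
      refine ((Finset.range (m + 1)).finite_toSet.biUnion (t := fun i => {j | ∃ z : M, z.1 ∈ P ∧
        Sn (nz hM i) z ∧ Frc νM RM bM z (nz hM m) (nz hM j)}) (fun i _ => h1 i)).subset ?_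
      rintro j ⟨i, hi, h3⟩
      exact Set.mem_biUnion (x := i) (by simp; omega) h3
    obtain ⟨j, hj⟩ := h2.exists_notMem
    exact ⟨j, hj⟩
  let c : ℕ → ℕ := fun m => Nat.find (hfin m)
  have hc : ∀ m, ¬ Bad m (c m) := fun m => Nat.find_spec (hfin m)
  have hBd : ∀ n (x y : (Fin n → M) → ℕ), hM.DN x → hM.DN y → hM.Dfn (fun v => Bad (x v) (y v)) := by
    intro n x y hx hy
    have h1 : hM.Dfn (fun v : Fin 2 → M => ∃ i, i ≤ natD (v 0).1 ∧ ∃ z : M, z.1 ∈ PM.1 ∧ ∃ i' m' j' : M,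
        i'.1 = natZ i ∧ m'.1 = natZ (natD (v 0).1) ∧ j'.1 = natZ (natD (v 1).1) ∧
        Sn i' z ∧ Frc νM RM bM z m' j') := by
      refine Dfn.exN (P := fun v i => i ≤ natD (v 0).1 ∧ ∃ z : M, z.1 ∈ PM.1 ∧ ∃ i' m' j' : M,
        i'.1 = natZ i ∧ m'.1 = natZ (natD (v 0).1) ∧ j'.1 = natZ (natD (v 1).1) ∧
        Sn i' z ∧ Frc νM RM bM z m' j') ?_
      refine Dfn.and (Dfn.leN (DN.var _) (DN.var _)) (Dfn.ex (Dfn.and (Dfn.mem (DT.var _) (DT.const _))
        (Dfn.ex (Dfn.ex (Dfn.ex (Dfn.and (Dfn.eqNatZ (DT.var _) (DN.var _)) (Dfn.and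
          (Dfn.eqNatZ (DT.var _) (DN.var _)) (Dfn.and (Dfn.eqNatZ (DT.var _) (DN.var _)) (Dfn.and
            (Dfn.subst2 hS.dfn (DT.var _) (DT.var _)) (Dfn.subst3 (Frc.dfn hM νM RM bM) (DT.var _) (DT.var _)
              (DT.var _)))))))))))
    have h2 : hM.Dfn (fun v : Fin 2 → M => Bad (natD (v 0).1) (natD (v 1).1)) := by
      refine h1.congr fun v => ?_
      constructor
      · rintro ⟨i, hi, z, hz, i', m', j', e1, e2, e3, h3, h4⟩
        refine ⟨i, hi, z, hz, ?_⟩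
        have e1' : i' = nz hM i := Subtype.ext e1
        have e2' : m' = nz hM _ := Subtype.ext e2
        have e3' : j' = nz hM _ := Subtype.ext e3
        rw [← e1', ← e2', ← e3']
        exact ⟨h3, h4⟩
      · rintro ⟨i, hi, z, hz, h3, h4⟩
        exact ⟨i, hi, z, hz, _, _, _, rfl, rfl, rfl, h3, h4⟩
    have h3 : hM.Dfn (fun v : Fin (n + 1) → M => Bad (x (fun i => v i.castSucc)) (natD (v (Fin.last n)).1)) := by
      refine Dfn.subN (n := n + 1) (P := fun v k => Bad k (natD (v (Fin.last n)).1))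
        (s := fun v => x (fun i => v i.castSucc)) ?_ hx.lift
      exact Dfn.subst2 (P := fun a b => Bad (natD a.1) (natD b.1)) h2 (DT.var _) (DT.var _)
    exact Dfn.subN (P := fun v k => Bad (x v) k) h3 hy
  have hcM : c ∈ Rl M := by
    refine mem_Rl' hM (DR.mk (DN.of (P := fun v j => ¬ Bad (natD (v 0).1) j ∧ ∀ j', j' < j →
      Bad (natD (v 0).1) j') ?_ ?_))
    · refine Dfn.and (Dfn.not (hBd _ _ _ (DN.var _) (DN.var _))) ?_
      refine Dfn.allN (P := fun v j' => j' < natD (v 1).1 → Bad (natD (v 0).1) j') ?_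
      exact Dfn.imp (Dfn.ltN (DN.var _) (DN.var _)) (hBd _ _ _ (DN.var _) (DN.var _))
    · intro v j
      show _ ↔ Nat.find (hfin (natD (v 0).1)) = j
      rw [Nat.find_eq_iff]
      simp only [not_not]
  refine ⟨c, hcM, fun n => ?_⟩
  -- density
  obtain ⟨q, hq, m, hm, a, x, x', h1, h2, h3, h4⟩ : ∃ q : M, q.1 ∈ g ∧ ∃ m, n ≤ m ∧ ∃ a x x' : M,
      x'.1 = natZ m ∧ x.1 = ZFSet.pair x'.1 a.1 ∧ ZFSet.pair x.1 q.1 ∈ νM.1 ∧
      ¬ ∃ i, i < b m ∧ i < lenN (natD a.1) ∧ getN (natD a.1) i = c m := by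
    obtain ⟨p0, hp0⟩ := hF.gen.ne
    refine hF.gen_dfn (D := fun q => ∃ m, n ≤ m ∧ ∃ a x x' : M,
      x'.1 = natZ m ∧ x.1 = ZFSet.pair x'.1 a.1 ∧ ZFSet.pair x.1 q.1 ∈ νM.1 ∧
      ¬ ∃ i, i < b m ∧ i < lenN (natD a.1) ∧ getN (natD a.1) i = c m) ?_ hp0 ?_
    · refine Dfn.exN (P := fun v m => n ≤ m ∧ ∃ a x x' : M,
        x'.1 = natZ m ∧ x.1 = ZFSet.pair x'.1 a.1 ∧ ZFSet.pair x.1 (v 0).1 ∈ νM.1 ∧
        ¬ ∃ i, i < b m ∧ i < lenN (natD a.1) ∧ getN (natD a.1) i = c m) ?_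
      refine Dfn.and (Dfn.leN (DN.const _) (DN.var _)) (Dfn.ex (Dfn.ex (Dfn.ex (Dfn.and
        (Dfn.eqNatZ (DT.var _) (DN.var _)) (Dfn.and (Dfn.isPair (DT.var _) (DT.var _) (DT.var _)) (Dfn.and
          (Dfn.pairMem (DT.var _) (DT.var _) (DT.const _)) (Dfn.not ?_)))))))
      refine Dfn.exN (P := fun v i => i < b (natD (v 1).1) ∧ i < lenN (natD (v 2).1) ∧
        getN (natD (v 2).1) i = c (natD (v 1).1)) ?_
      exact Dfn.and (Dfn.ltN (DN.var _) (DN.app (DR.const hb) (DN.var _))) (Dfn.and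
        (Dfn.ltN (DN.var _) (DN.primrec prim_lenN (DN.var _))) (Dfn.eqN (DN.primrec₂ prim_getN (DN.var _)
          (DN.var _)) (DN.app (DR.const hcM) (DN.var _))))
    · intro r hr
      obtain ⟨i, hi⟩ := hS.cov r (hF.po.mem hr).1
      have h1 := hc (max n i)
      have h2 : ¬ Frc νM RM bM r (nz hM (max n i)) (nz hM (c (max n i))) := by
        intro h3
        exact h1 ⟨i, le_max_right _ _, r, (hF.po.mem hr).1, hi, h3⟩
      unfold Frc at h2
      push Not at h2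
      obtain ⟨z', v, x, h3, h4, h5, h6⟩ := h2
      refine ⟨z', h3, max n i, le_max_left _ _, v, x, nz hM (max n i), rfl, h4, h5, ?_⟩
      rintro ⟨i', h7, h8, h9⟩
      refine h6 i' ?_ h8 ?_
      · show i' < rlD (rz b) (natD (natZ.{u} (max n i)))
        rw [rlD_rz, natD_natZ]; exact h7
      · show _ = natD (natZ.{u} (c (max n i)))
        rw [natD_natZ]; exact h9
  refine ⟨m, hm, fun hmem => h4 ?_⟩
  have h5 : a.1 = natZ (s m) := (hval m a.1).2 ⟨q.1, hq, by rw [← h1, ← h2]; exact h3⟩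
  rw [h5, natD_natZ]
  obtain ⟨i, hi, hi2⟩ := List.getElem_of_mem hmem
  refine ⟨i, lt_of_lt_of_le hi (hbs m), hi, ?_⟩
  show (dl (s m)).getD i 0 = c m
  rw [List.getD_eq_getElem _ _ hi]
  exact hi2

end Pool.Agent.H83.GP
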