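import Pool.Agent.H83.GP.Slal

/-!
# MP_66e4cf_lc: sequences of countable ordinals in the extension are bounded
-/

set_option autoImplicit false
set_option linter.unusedVariables false
set_option linter.unusedSectionVars false

universe u

open Pool.Agent.H17.Omega Pool.Agent.H17.Omega.CTM Pool.Agent.H17.GP Pool.Agent.H52.GX Pool.Agent.H52.GC
  Pool.Agent.H52.GP

namespace Pool.Agent.H83.GP

variable {M : Set ZFSet.{u}} {P R : ZFSet.{u}} {g : Set ZFSet.{u}}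

/-- `y` is an upper bound of the values at `n` that are forced by conditions of the piece `i` -/
def UbC (Sn : M → M → Prop) (P ν d i n y : M) : Prop := y.1 ∈ d.1 ∧ ∀ a z x : M, a.1 ∈ d.1 → z.1 ∈ P.1 →
  Sn i z → x.1 = ZFSet.pair n.1 a.1 → ZFSet.pair x.1 z.1 ∈ ν.1 → a.1 ∈ y.1 ∨ a = y

theorem UbC.dfn (hM : CTM M) {Sn : M → M → Prop} (hS : hM.Dfn (fun v : Fin 2 → M => Sn (v 0) (v 1)))
    (P ν d : M) : hM.Dfn (fun v : Fin 3 → M => UbC Sn P ν d (v 0) (v 1) (v 2)) := by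
  unfold UbC
  exact Dfn.and (Dfn.mem (DT.var _) (DT.const _)) (Dfn.all (Dfn.all (Dfn.all (Dfn.imp
    (Dfn.mem (DT.var _) (DT.const _)) (Dfn.imp (Dfn.mem (DT.var _) (DT.const _)) (Dfn.imp
      (Dfn.subst2 hS (DT.var _) (DT.var _)) (Dfn.imp (Dfn.isPair (DT.var _) (DT.var _) (DT.var _)) (Dfn.imp
        (Dfn.pairMem (DT.var _) (DT.var _) (DT.const _)) (Dfn.or (Dfn.mem (DT.var _) (DT.var _))
          (Dfn.eq (DT.var _) (DT.var _)))))))))))

theorem bdd_of (hM : CTM M) (hF : Fr M P R g) {Sn : M → M → Prop} (hS : Pcs hM P R Sn) {δ : Ordinal.{u}}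
    (hδ : IsOm1 M δ) {f : ℕ → Ordinal.{u}} (hf : ∀ n, f n < δ)
    (hfN : seqZ (fun n => (f n).toZFSet) ∈ ExtZ M g) : ∃ β < δ, ∀ n, f n ≤ β := by
  classical
  have hP := hF.hP
  obtain ⟨ν, hν, hn, hval⟩ := hF.exists_seqNm hδ.mem (s := fun n => (f n).toZFSet)
    (fun n => Ordinal.toZFSet_mem_toZFSet_iff.2 (hf n)) hfN
  let νM : M := ⟨ν, hν⟩
  let dM : M := ⟨δ.toZFSet, hδ.mem⟩
  let PM : M := ⟨P, hP⟩
  have hord : ∀ α < δ, α.toZFSet ∈ M := fun α hα => hM.mem_of_mem hδ.mem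
    (Ordinal.toZFSet_mem_toZFSet_iff.2 hα)
  have hδ0 : 0 < δ := by simpa using hδ.omega_lt hM 0
  -- upper bounds
  have hub : ∀ i n : ℕ, ∃ β, ∃ hβ : β < δ, UbC Sn PM νM dM (nz hM i) (nz hM n) ⟨β.toZFSet, hord β hβ⟩ := by
    intro i n
    let A : Set Ordinal.{u} := {α | α < δ ∧ ∃ z : M, z.1 ∈ P ∧ Sn (nz hM i) z ∧
      ZFSet.pair (ZFSet.pair (natZ n) α.toZFSet) z.1 ∈ ν}
    have hA : A.Finite := by
      obtain ⟨k, hk⟩ := hS.frac i
      by_contra hinf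
      obtain ⟨B, hB, hBc⟩ := (Set.not_finite.1 hinf : Set.Infinite A).exists_subset_card_eq (k + 1)
      let e := B.equivFin
      have hex : ∀ j : Fin (k + 1), ∃ z : M, z.1 ∈ P ∧ Sn (nz hM i) z ∧
          ZFSet.pair (ZFSet.pair (natZ n) ((e.symm (Fin.cast hBc.symm j)).1 : Ordinal.{u}).toZFSet) z.1 ∈ ν :=
        fun j => (hB (e.symm (Fin.cast hBc.symm j)).2).2
      choose z hz1 hz2 hz3 using hex
      let z' : ℕ → M := fun j => if h : j < k + 1 then z ⟨j, h⟩ else PM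
      obtain ⟨J, hJ, hJc, r, hr, hrz⟩ := hk z' (Finset.range (k + 1)) (fun j hj => by
        have h : j < k + 1 := Finset.mem_range.1 hj
        simp only [z', dif_pos h]
        exact ⟨hz1 _, hz2 _⟩)
      have hJ1 : J.card ≤ 1 := by
        refine Finset.card_le_one.2 fun a ha b hb => ?_
        have ha' : a < k + 1 := Finset.mem_range.1 (hJ ha)
        have hb' : b < k + 1 := Finset.mem_range.1 (hJ hb)
        have h1 := hrz a ha
        have h2 := hrz b hb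
        simp only [z', dif_pos ha'] at h1
        simp only [z', dif_pos hb'] at h2
        have h3 := hn.uni n _ _ _ _ (hz3 ⟨a, ha'⟩) (hz3 ⟨b, hb'⟩) ⟨r, h1, h2⟩
        have h4 := Subtype.ext (toZFSet_inj.1 h3)
        have h5 := e.symm.injective h4
        have h6 := congrArg Fin.val h5
        simpa using h6
      rw [Finset.card_range] at hJc
      have := Nat.mul_le_mul_left k hJ1
      omega
    have hmax : ∃ β < δ, ∀ α ∈ A, α ≤ β := by
      rcases A.eq_empty_or_nonempty with h0 | h0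
      · exact ⟨0, hδ0, fun α hα => by rw [h0] at hα; exact hα.elim⟩
      · obtain ⟨β, hβ, h1⟩ := Set.exists_max_image A id hA h0
        exact ⟨β, hβ.1, fun α hα => h1 α hα⟩
    obtain ⟨β, hβ, h1⟩ := hmax
    refine ⟨β, hβ, Ordinal.toZFSet_mem_toZFSet_iff.2 hβ, ?_⟩
    intro a z x ha hz hSz hx hxz
    obtain ⟨α, hα, hα2⟩ := Ordinal.mem_toZFSet_iff.1 ha
    have h2 : α ∈ A := ⟨hα, z, hz, hSz, by
      have : ZFSet.pair (natZ n) α.toZFSet = x.1 := by rw [hx, ← hα2]; rfl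
      rw [this]; exact hxz⟩
    rcases lt_or_eq_of_le (h1 α h2) with h3 | h3
    · left
      rw [← hα2]
      exact Ordinal.toZFSet_mem_toZFSet_iff.2 h3
    · right
      exact Subtype.ext (by rw [← hα2, h3])
  -- the least upper bounds are bounded
  let F : M → M → Prop := fun x y => ∃ i n : M, x.1 = ZFSet.pair i.1 n.1 ∧ UbC Sn PM νM dM i n y ∧
    ∀ y' : M, y'.1 ∈ y.1 → ¬ UbC Sn PM νM dM i n y'
  have hFd : hM.Dfn (fun v : Fin 2 → M => F (v 0) (v 1)) := by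
    have h := UbC.dfn hM hS.dfn PM νM dM
    exact Dfn.ex (Dfn.ex (Dfn.and (Dfn.isPair (DT.var _) (DT.var _) (DT.var _)) (Dfn.and
      (Dfn.subst3 h (DT.var _) (DT.var _) (DT.var _)) (Dfn.all (Dfn.imp (Dfn.mem (DT.var _) (DT.var _))
        (Dfn.not (Dfn.subst3 h (DT.var _) (DT.var _) (DT.var _))))))))
  obtain ⟨β0, hβ0, hb⟩ := hδ.bdd hM (hM.prod_mem hM.omZ_mem hM.omZ_mem)
    (Ctb.prod hM (ctb_om hM) (ctb_om hM)) hFd (by
      rintro x hx y y' ⟨i, n, h1, h2, h3⟩ ⟨i', n', h1', h2', h3'⟩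
      rw [h1, ZFSet.pair_inj] at h1'
      have e1 : i = i' := Subtype.ext h1'.1
      have e2 : n = n' := Subtype.ext h1'.2
      subst e1 e2
      obtain ⟨β, hβ, e3⟩ := Ordinal.mem_toZFSet_iff.1 h2.1
      obtain ⟨β', hβ', e4⟩ := Ordinal.mem_toZFSet_iff.1 h2'.1
      rcases lt_trichotomy β β' with h4 | h4 | h4
      · exact (h3' y (by rw [← e3, ← e4]; exact Ordinal.toZFSet_mem_toZFSet_iff.2 h4) h2).elim
      · exact Subtype.ext (by rw [← e3, ← e4, h4])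
      · exact (h3 y' (by rw [← e3, ← e4]; exact Ordinal.toZFSet_mem_toZFSet_iff.2 h4) h2').elim)
  refine ⟨β0, hβ0, fun n => ?_⟩
  obtain ⟨q, hq, h1⟩ := (hval n _).1 rfl
  have hqM : q ∈ M := hM.mem_of_mem hP (hF.gen.sub q hq)
  obtain ⟨i, hi⟩ := hS.cov ⟨q, hqM⟩ (hF.gen.sub q hq)
  -- the least upper bound
  have hex : ∃ β, ∃ hβ : β < δ, UbC Sn PM νM dM (nz hM i) (nz hM n) ⟨β.toZFSet, hord β hβ⟩ := hub i n
  let β := sInf {β | ∃ hβ : β < δ, UbC Sn PM νM dM (nz hM i) (nz hM n) ⟨β.toZFSet, hord β hβ⟩}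
  obtain ⟨hβ, h2⟩ : ∃ hβ : β < δ, UbC Sn PM νM dM (nz hM i) (nz hM n) ⟨β.toZFSet, hord β hβ⟩ :=
    csInf_mem (s := {β | ∃ hβ : β < δ, UbC Sn PM νM dM (nz hM i) (nz hM n) ⟨β.toZFSet, hord β hβ⟩}) hex
  have h3 : F ⟨ZFSet.pair (natZ i) (natZ n), hM.pair_mem (hM.natZ_mem_N i) (hM.natZ_mem_N n)⟩
      ⟨β.toZFSet, hord β hβ⟩ := by
    refine ⟨nz hM i, nz hM n, rfl, h2, fun y' hy' h4 => ?_⟩
    obtain ⟨γ, hγ, e⟩ := Ordinal.mem_toZFSet_iff.1 hy'
    have h5 : γ ∈ {β | ∃ hβ : β < δ, UbC Sn PM νM dM (nz hM i) (nz hM n) ⟨β.toZFSet, hord β hβ⟩} := by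
      refine ⟨hγ.trans hβ, ?_⟩
      have : (⟨γ.toZFSet, hord γ (hγ.trans hβ)⟩ : M) = y' := Subtype.ext e
      rw [this]; exact h4
    exact absurd (csInf_le' h5) (not_le.2 hγ)
  have h4 := hb _ (ZFSet.pair_mem_prod.2 ⟨natZ_mem_omZ i, natZ_mem_omZ n⟩) _ h3 β hβ rfl
  refine le_trans ?_ h4
  rcases h2.2 ⟨(f n).toZFSet, hord _ (hf n)⟩ ⟨q, hqM⟩ ⟨ZFSet.pair (natZ n) (f n).toZFSet,
    hM.pair_mem (hM.natZ_mem_N n) (hord _ (hf n))⟩ (Ordinal.toZFSet_mem_toZFSet_iff.2 (hf n))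
    (hF.gen.sub q hq) hi rfl h1 with h5 | h5
  · exact (Ordinal.toZFSet_mem_toZFSet_iff.1 h5).le
  · have h6 : (f n).toZFSet = β.toZFSet := congrArg Subtype.val h5
    exact (toZFSet_inj.1 h6).le

end Pool.Agent.H83.GP
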