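import Pool.Agent.H52.GX.SeqName
import Pool.Agent.H19.GP.Sys

/-!
# MP_66e4cf_lc (Goldstern's principle): templates of stems, conditions, the iteration

* `Tm` is a template: the stems are natural numbers; `le m' m`: the stem `m'` extends the stem `m`;
  `len m` is the length of `m`; `cap m` is the number of promises that `m` can carry; `good m i j`:
  the stem `m` obeys, at the place `i < len m`, a promise with the value `j` at `i`; `hit m k j`: the
  stem `m` takes the value `j` at the place `k`.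
* A promise is a real `x`; it is obeyed by `m` if `good m i (x i)` for all `i < len m`.
* A condition of the iteration is a finite-support function from the ordinals to pairs
  (stem, finite set of names of reals); the order is pointwise.
-/

set_option autoImplicit false
set_option linter.unusedVariables false
set_option linter.unusedSectionVars false

universe u

open Pool.Agent.H17.Omega Pool.Agent.H17.GP Pool.Agent.H52.GX

namespace Pool.Agent.H83.GP

/-! ## Codes -/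

/-- a small set of sets as a set -/
noncomputable def zs (s : Set ZFSet.{u}) [Small.{u} s] : ZFSet.{u} :=
  ZFSet.range (fun x : Shrink.{u} s => ((equivShrink s).symm x).1)

theorem mem_zs {s : Set ZFSet.{u}} [Small.{u} s] {z : ZFSet.{u}} : z ∈ zs s ↔ z ∈ s := by
  rw [zs, ZFSet.mem_range]
  constructor
  · rintro ⟨x, rfl⟩
    exact ((equivShrink s).symm x).2
  · intro h
    exact ⟨equivShrink s ⟨z, h⟩, by simp⟩

instance small_finset (a : Finset ZFSet.{u}) : Small.{u} {z | z ∈ a} := by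
  have : Finite {z | z ∈ a} := (Finset.finite_toSet a).to_subtype
  infer_instance

/-- the code of a finite set of sets -/
noncomputable def fs (a : Finset ZFSet.{u}) : ZFSet.{u} := zs {z | z ∈ a}

theorem mem_fs {a : Finset ZFSet.{u}} {z : ZFSet.{u}} : z ∈ fs a ↔ z ∈ a := mem_zs

theorem fs_inj {a b : Finset ZFSet.{u}} (h : fs a = fs b) : a = b := by
  ext z
  rw [← mem_fs, h, mem_fs]

/-! ## Templates -/

/-- A template of stems. -/
structure Tm where
  /-- the stem `m'` extends the stem `m` -/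
  le : ℕ → ℕ → Prop
  /-- the length -/
  len : ℕ → ℕ
  /-- the capacity -/
  cap : ℕ → ℕ
  /-- the stem obeys a promise with this value at this place -/
  good : ℕ → ℕ → ℕ → Prop
  /-- the value of the stem at this place -/
  hit : ℕ → ℕ → ℕ → Prop

/-- The axioms of templates. -/
structure Tm.Ax (t : Tm) : Prop where
  refl : ∀ m, t.le m m
  trans : ∀ a b c, t.le a b → t.le b c → t.le a c
  anti : ∀ a b, t.le a b → t.le b a → a = b
  top : ∀ m, t.le m 0
  cap0 : t.cap 0 = 0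
  len_mono : ∀ a b, t.le a b → t.len b ≤ t.len a
  good_mono : ∀ a b, t.le a b → ∀ i < t.len b, ∀ j, t.good b i j → t.good a i j
  good0 : ∀ m i, t.good m i 0
  amal : ∀ m N B : ℕ, ∃ L, ∀ (I : Finset ℕ) (a : ℕ → Finset (ℕ → ℕ)) (v : ℕ → ℕ), I.card ≤ N →
    (∀ i ∈ I, (a i).card ≤ t.cap m) → (∀ i ∈ I, ∀ x ∈ a i, ∀ k < t.len m, t.good m k (x k)) →
    ∃ J ⊆ I, I.card ≤ 2 * J.card ∧ ∃ m', t.le m' m ∧ B ≤ t.len m' ∧ t.len m' ≤ L ∧ B ≤ t.cap m' ∧
      (∀ i ∈ J, ∀ x ∈ a i, ∀ k < t.len m', t.good m' k (x k)) ∧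
      ∃ k, B ≤ k ∧ k < L ∧ t.hit m' k (v k)

open Classical in
/-- a binary relation between natural numbers as a real -/
noncomputable def r2 (r : ℕ → ℕ → Prop) : ℕ → ℕ := fun n => if r n.unpair.1 n.unpair.2 then 0 else 1

open Classical in
/-- a ternary relation between natural numbers as a real -/
noncomputable def r3 (r : ℕ → ℕ → ℕ → Prop) : ℕ → ℕ :=
  fun n => if r n.unpair.1 n.unpair.2.unpair.1 n.unpair.2.unpair.2 then 0 else 1

/-- The template is in `M`. -/
structure Tm.In (t : Tm) (M : Set ZFSet.{u}) : Prop where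
  le : r2 t.le ∈ Rl M
  len : t.len ∈ Rl M
  cap : t.cap ∈ Rl M
  good : r3 t.good ∈ Rl M
  hit : r3 t.hit ∈ Rl M

/-! ## Conditions -/

/-- Conditions: at each ordinal a stem and a finite set of names. -/
structure Cn where
  /-- the values -/
  f : Ordinal.{u} → ℕ × Finset ZFSet.{u}
  fin : {ξ | f ξ ≠ (0, ∅)}.Finite

theorem Cn.ext' {p q : Cn.{u}} (h : ∀ ξ, p.f ξ = q.f ξ) : p = q := by
  cases p; cases q
  congr
  exact funext h

/-- the set that codes the condition `p`: the function `ξ ↦ (stem, names)` on the support -/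
def Cn.st (p : Cn.{u}) : Set ZFSet.{u} :=
  {z | ∃ ξ, p.f ξ ≠ (0, ∅) ∧ z = ZFSet.pair ξ.toZFSet (ZFSet.pair (natZ (p.f ξ).1) (fs (p.f ξ).2))}

theorem Cn.st_finite (p : Cn.{u}) : p.st.Finite := by
  refine (p.fin.image (fun ξ => ZFSet.pair ξ.toZFSet (ZFSet.pair (natZ (p.f ξ).1) (fs (p.f ξ).2)))).subset ?_
  rintro z ⟨ξ, h, rfl⟩
  exact ⟨ξ, h, rfl⟩

instance (p : Cn.{u}) : Small.{u} p.st := by
  have := p.st_finite.to_subtype
  infer_instance

/-- the code of a condition -/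
noncomputable def cd (p : Cn.{u}) : ZFSet.{u} := zs p.st

theorem mem_cd {p : Cn.{u}} {z : ZFSet.{u}} : z ∈ cd p ↔ ∃ ξ, p.f ξ ≠ (0, ∅) ∧
    z = ZFSet.pair ξ.toZFSet (ZFSet.pair (natZ (p.f ξ).1) (fs (p.f ξ).2)) := mem_zs

/-- the pointwise order of conditions -/
def Cn.Le (t : Tm) (p q : Cn.{u}) : Prop :=
  ∀ ξ, t.le (p.f ξ).1 (q.f ξ).1 ∧ (q.f ξ).2 ⊆ (p.f ξ).2

/-- the trivial condition -/
def Cn.one : Cn.{u} := ⟨fun _ => (0, ∅), by simp⟩

open Classical in
/-- restriction to the coordinates below `η` -/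
noncomputable def Cn.res (p : Cn.{u}) (η : Ordinal.{u}) : Cn.{u} :=
  ⟨fun ξ => if ξ < η then p.f ξ else (0, ∅), by
    refine p.fin.subset fun x hx => ?_
    simp only [Set.mem_setOf_eq, ne_eq] at hx ⊢
    intro h
    apply hx
    split_ifs
    · exact h
    · rfl⟩

open Classical in
/-- `q` below `η`, the value `d` at `η`, and `p` above `η` -/
noncomputable def Cn.mix (q : Cn.{u}) (η : Ordinal.{u}) (d : ℕ × Finset ZFSet.{u}) (p : Cn.{u}) : Cn.{u} :=
  ⟨fun ξ => if ξ < η then q.f ξ else if ξ = η then d else p.f ξ, by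
    refine ((q.fin.union (Set.finite_singleton η)).union p.fin).subset fun x hx => ?_
    simp only [Set.mem_setOf_eq, ne_eq] at hx
    split_ifs at hx with h1 h2
    · exact Or.inl (Or.inl hx)
    · exact Or.inl (Or.inr h2)
    · exact Or.inr hx⟩

open Classical in
/-- `q` below `η` and `p` from `η` on -/
noncomputable def Cn.cat (q : Cn.{u}) (η : Ordinal.{u}) (p : Cn.{u}) : Cn.{u} :=
  ⟨fun ξ => if ξ < η then q.f ξ else p.f ξ, by
    refine (q.fin.union p.fin).subset fun x hx => ?_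
    simp only [Set.mem_setOf_eq, ne_eq] at hx
    split_ifs at hx with h1
    · exact Or.inl hx
    · exact Or.inr hx⟩

/-! ## Names of reals and the iteration -/

/-- `p` forces that the value of the name `T` at `i` is `j` -/
def Tr (T : ZFSet.{u}) (i j : ℕ) (p : Cn.{u}) : Prop :=
  ZFSet.pair (ZFSet.pair (natZ i) (natZ j)) (cd p) ∈ T

/-- `T` is a name of a real, for the set of conditions `S` (the format of `SeqNm`) -/
structure IsNm (t : Tm) (S : Set Cn.{u}) (T : ZFSet.{u}) : Prop where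
  mem : ∀ z ∈ T, ∃ i j : ℕ, ∃ p ∈ S, z = ZFSet.pair (ZFSet.pair (natZ i) (natZ j)) (cd p)
  uni : ∀ i j j', ∀ r ∈ S, Tr T i j r → Tr T i j' r → j = j'
  tot : ∀ i, ∀ p ∈ S, ∃ q ∈ S, q.Le t p ∧ ∃ j, Tr T i j q
  down : ∀ i j, ∀ p ∈ S, ∀ q ∈ S, q.Le t p → Tr T i j p → Tr T i j q

/-- `d` is an admissible value below the condition `p` of `S` -/
def Vd (t : Tm) (M : Set ZFSet.{u}) (S : Set Cn.{u}) (p : Cn.{u}) (d : ℕ × Finset ZFSet.{u}) : Prop :=
  d.2.card ≤ t.cap d.1 ∧ ∀ T ∈ d.2, T ∈ M ∧ IsNm t S T ∧ ∀ i < t.len d.1, ∃ j, t.good d.1 i j ∧ Tr T i j p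

/-- the conditions of the iteration of length `ξ` -/
noncomputable def SS (t : Tm) (M : Set ZFSet.{u}) : Ordinal.{u} → Set Cn.{u} :=
  (wellFounded_lt (α := Ordinal.{u})).fix fun ξ S =>
    {p | ∀ η, p.f η ≠ (0, ∅) → ∃ h : η < ξ, Vd t M (S η h) (p.res η) (p.f η)}

theorem mem_SS {t : Tm} {M : Set ZFSet.{u}} {ξ : Ordinal.{u}} {p : Cn.{u}} :
    p ∈ SS t M ξ ↔ ∀ η, p.f η ≠ (0, ∅) → η < ξ ∧ Vd t M (SS t M η) (p.res η) (p.f η) := by
  unfold SS
  rw [WellFounded.fix_eq]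
  constructor
  · intro h η hη
    obtain ⟨h1, h2⟩ := h η hη
    exact ⟨h1, h2⟩
  · intro h η hη
    obtain ⟨h1, h2⟩ := h η hη
    exact ⟨h1, h2⟩

/-! ## Generic filters of the iteration -/

/-- `G` is a filter of `SS t M δ` that is generic over `M`. -/
structure Gn (t : Tm) (M : Set ZFSet.{u}) (δ : Ordinal.{u}) (G : Set Cn.{u}) : Prop where
  sub : ∀ p ∈ G, p ∈ SS t M δ
  ne : G.Nonempty
  up : ∀ p ∈ G, ∀ q ∈ SS t M δ, p.Le t q → q ∈ G
  dir : ∀ p ∈ G, ∀ q ∈ G, ∃ r ∈ G, r.Le t p ∧ r.Le t q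
  gen : ∀ D ∈ M, (∀ p ∈ SS t M δ, ∃ q ∈ SS t M δ, q.Le t p ∧ cd q ∈ D) → ∃ p ∈ G, cd p ∈ D

/-- the filter of stems at the coordinate `ξ` -/
def gs (t : Tm) (G : Set Cn.{u}) (ξ : Ordinal.{u}) : Set ℕ := {m | ∃ p ∈ G, t.le (p.f ξ).1 m}

/-- `δ` is the first uncountable ordinal of `M` -/
structure Om1 (M : Set ZFSet.{u}) (δ : Ordinal.{u}) : Prop where
  mem : δ.toZFSet ∈ M
  ctb : ∀ α < δ, ∃ s : ℕ → ZFSet.{u}, seqZ s ∈ M ∧ ∀ β < α, ∃ n, s n = β.toZFSet
  unc : ∀ s : ℕ → ZFSet.{u}, seqZ s ∈ M → ∃ β < δ, ∀ n, s n ≠ β.toZFSet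
  om : ∀ n : ℕ, (n : Ordinal.{u}) < δ

end Pool.Agent.H83.GP
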