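import Pool.Agent.H83.GP.AP

/-!
# MP_66e4cf_lc: density lemmas
-/

set_option autoImplicit false
set_option linter.unusedVariables false
set_option linter.unusedSectionVars false

universe u

open Pool.Agent.H17.Omega Pool.Agent.H17.GP

namespace Pool.Agent.H83.GP

variable {t : Tm} {M : Set ZFSet.{u}} {p q r : Cn.{u}} {ξ η δ : Ordinal.{u}} {d : ℕ × Finset ZFSet.{u}}

/-- `T1` agrees with `T` from the place `L` on. -/
def AgL (T1 T : ZFSet.{u}) (L : ℕ) : Prop := ∀ i, L ≤ i → ∀ (j : ℕ) (p : Cn.{u}), Tr T i j p → Tr T1 i j p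

/-- The admissible values at a coordinate, also the trivial ones. -/
theorem Vd_of_mem (hp : p ∈ SS t M δ) (ξ : Ordinal.{u}) : Vd t M (SS t M ξ) (p.res ξ) (p.f ξ) := by
  by_cases h : p.f ξ = (0, ∅)
  · rw [h]; exact ⟨by simp, by simp⟩
  · exact (mem_SS.1 hp ξ h).2

/-- Longer stems: the names at `ξ` do not change, the stem hits the name `T`. -/
theorem exists_ext (ht : t.Ax) (hp : p ∈ SS t M δ) (hξ : ξ < δ) (T : ZFSet.{u}) (hT : IsNm t (SS t M ξ) T)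
    (B : ℕ) : ∃ q ∈ SS t M δ, q.Le t p ∧ (q.f ξ).2 = (p.f ξ).2 ∧ B ≤ t.len (q.f ξ).1 ∧
      B ≤ t.cap (q.f ξ).1 ∧ ∃ k, B ≤ k ∧ ∃ j, Tr T k j (q.res ξ) ∧ t.hit (q.f ξ).1 k j := by
  classical
  have hV := Vd_of_mem hp ξ
  obtain ⟨L, hL⟩ := ht.amal (p.f ξ).1 1 (B + t.cap (p.f ξ).1)
  let F : Finset ZFSet.{u} := insert T (p.f ξ).2
  have hF : ∀ T' ∈ F, IsNm t (SS t M ξ) T' := by
    intro T' hT'
    rcases Finset.mem_insert.1 hT' with rfl | h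
    · exact hT
    · exact (hV.2 T' h).2.1
  obtain ⟨q2, hq2, h2, h3⟩ := exists_decide ht F hF L (res_mem_SS (η := ξ) hp)
  obtain ⟨J, hJ, hcard, m', hm', hm'1, hm'2, hm'3, hm'4, k, hk, hkL, hk2⟩ := hL {0}
    (fun i => ((p.f ξ).2).image (fun T => xval T q2)) (xval T q2) (by simp)
    (fun i hi => Finset.card_image_le.trans hV.1)
    (fun i hi x hx k hk => by
      obtain ⟨T', hT', rfl⟩ := Finset.mem_image.1 hx
      have h4 := hV.2 T' hT'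
      obtain ⟨j, hj, hj'⟩ := h4.2.2 k hk
      have h5 : Tr T' k j q2 := h4.2.1.down k j _ (res_mem_SS hp) q2 hq2 h2 hj'
      rw [xval_eq h4.2.1 hq2 h5]
      exact hj)
  have h0 : (0 : ℕ) ∈ J := by
    have h1 : 0 < J.card := by
      simp only [Finset.card_singleton] at hcard
      omega
    obtain ⟨x, hx⟩ := Finset.card_pos.1 h1
    have := hJ hx
    rw [Finset.mem_singleton] at this
    rwa [this] at hx
  have hd : Vd t M (SS t M ξ) q2 (m', (p.f ξ).2) := by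
    refine ⟨by show (p.f ξ).2.card ≤ t.cap m'; have := hV.1; omega, fun T' hT' => ?_⟩
    have h4 := hV.2 T' hT'
    refine ⟨h4.1, h4.2.1, fun i hi => ?_⟩
    obtain ⟨j, hj⟩ := h3 T' (Finset.mem_insert_of_mem hT') i (lt_of_lt_of_le hi hm'2)
    refine ⟨j, ?_, hj⟩
    have h5 := hm'4 0 h0 _ (Finset.mem_image_of_mem _ hT') i hi
    rwa [xval_eq h4.2.1 hq2 hj] at h5
  have hmix := mix_mem_SS ht hq2 hξ hp h2 hd hm' subset_rfl
  refine ⟨_, hmix.1, hmix.2, by rw [Cn.mix_self], ?_, ?_, k, by omega, ?_⟩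
  · rw [Cn.mix_self]; show B ≤ t.len m'; omega
  · rw [Cn.mix_self]; show B ≤ t.cap m'; omega
  · obtain ⟨j, hj⟩ := h3 T (Finset.mem_insert_self _ _) k hkL
    refine ⟨j, ?_, ?_⟩
    · rw [Cn.mix_res_le le_rfl, res_of_SS hq2]; exact hj
    · rw [Cn.mix_self]
      rwa [xval_eq hT hq2 hj] at hk2

/-- New promises. -/
theorem exists_promise (ht : t.Ax) (hp : p ∈ SS t M δ) (hξ : ξ < δ) (T : ZFSet.{u})
    (hT : IsNm t (SS t M ξ) T) (hmod : ∀ L : ℕ, ∃ T1 ∈ M, IsNm t (SS t M ξ) T1 ∧ AgL T1 T L ∧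
      ∀ i < L, ∀ p ∈ SS t M ξ, Tr T1 i 0 p) :
    ∃ q ∈ SS t M δ, q.Le t p ∧ ∃ T1 ∈ (q.f ξ).2, ∃ L, AgL T1 T L := by
  classical
  obtain ⟨q, hq, h1, h2, h3, h4, -⟩ := exists_ext ht hp hξ T hT ((p.f ξ).2.card + 1)
  obtain ⟨T1, h5, h6, h7, h8⟩ := hmod (t.len (q.f ξ).1)
  have hV := Vd_of_mem hq ξ
  have hd : Vd t M (SS t M ξ) (q.res ξ) ((q.f ξ).1, insert T1 (q.f ξ).2) := by
    refine ⟨?_, fun T' hT' => ?_⟩
    · show (insert T1 (q.f ξ).2).card ≤ t.cap (q.f ξ).1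
      have := Finset.card_insert_le T1 (q.f ξ).2
      rw [h2] at this ⊢
      omega
    · rcases Finset.mem_insert.1 hT' with rfl | hT'
      · exact ⟨h5, h6, fun i hi => ⟨0, ht.good0 _ _, h8 i hi _ (res_mem_SS hq)⟩⟩
      · exact hV.2 T' hT'
  have hmix := mix_mem_SS ht (res_mem_SS hq) hξ hq (Cn.Le.refl ht _) hd (ht.refl _)
    (Finset.subset_insert _ _)
  refine ⟨_, hmix.1, hmix.2.trans ht h1, T1, ?_, _, h7⟩
  rw [Cn.mix_self]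
  exact Finset.mem_insert_self _ _

/-! ## Generic filters -/

variable {G : Set Cn.{u}}

theorem Gn.meet (hG : Gn t M δ G) {D : Cn.{u} → Prop} (hD : ∃ X ∈ M, ∀ p ∈ SS t M δ, cd p ∈ X ↔ D p)
    (hdense : ∀ p ∈ SS t M δ, ∃ q ∈ SS t M δ, q.Le t p ∧ D q) : ∃ p ∈ G, D p := by
  obtain ⟨X, hX, h⟩ := hD
  obtain ⟨p, hp, h1⟩ := hG.gen X hX fun p hp => by
    obtain ⟨q, hq, h2, h3⟩ := hdense p hp
    exact ⟨q, hq, h2, (h q hq).2 h3⟩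
  exact ⟨p, hp, (h p (hG.sub p hp)).1 h1⟩

theorem gs_zero (ht : t.Ax) (hG : Gn t M δ G) (ξ : Ordinal.{u}) : 0 ∈ gs t G ξ := by
  obtain ⟨p, hp⟩ := hG.ne
  exact ⟨p, hp, ht.top _⟩

theorem gs_up (ht : t.Ax) {m n : ℕ} (hm : m ∈ gs t G ξ) (h : t.le m n) : n ∈ gs t G ξ := by
  obtain ⟨p, hp, h1⟩ := hm
  exact ⟨p, hp, ht.trans _ _ _ h1 h⟩

theorem gs_dir (ht : t.Ax) (hG : Gn t M δ G) {m n : ℕ} (hm : m ∈ gs t G ξ) (hn : n ∈ gs t G ξ) :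
    ∃ r ∈ gs t G ξ, t.le r m ∧ t.le r n := by
  obtain ⟨p, hp, h1⟩ := hm
  obtain ⟨q, hq, h2⟩ := hn
  obtain ⟨r, hr, h3, h4⟩ := hG.dir p hp q hq
  exact ⟨(r.f ξ).1, ⟨r, hr, ht.refl _⟩, ht.trans _ _ _ (h3 ξ).1 h1, ht.trans _ _ _ (h4 ξ).1 h2⟩

/-- `x` is the value of the name `T` -/
def ValG (G : Set Cn.{u}) (ξ : Ordinal.{u}) (T : ZFSet.{u}) (x : ℕ → ℕ) : Prop :=
  ∀ n j, j = x n ↔ ∃ p ∈ G, Tr T n j (p.res ξ)

/-- The generic filter of stems obeys the promises of its conditions. -/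
theorem obey_gen (ht : t.Ax) (hG : Gn t M δ G) {T T1 : ZFSet.{u}} {L : ℕ} (hq : q ∈ G)
    (hT1 : T1 ∈ (q.f ξ).2) (hAg : AgL T1 T L) {x : ℕ → ℕ} (hx : ValG G ξ T x) {m : ℕ} (hm : m ∈ gs t G ξ) :
    ∃ m' ∈ gs t G ξ, t.le m' m ∧ ∀ i, L ≤ i → i < t.len m' → t.good m' i (x i) := by
  obtain ⟨p, hp, h1⟩ := hm
  obtain ⟨r, hr, h2, h3⟩ := hG.dir p hp q hq
  refine ⟨(r.f ξ).1, ⟨r, hr, ht.refl _⟩, ht.trans _ _ _ (h2 ξ).1 h1, fun i hi hil => ?_⟩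
  have hV := Vd_of_mem (hG.sub r hr) ξ
  obtain ⟨-, h4, h5⟩ := hV.2 T1 ((h3 ξ).2 hT1)
  obtain ⟨j, hj, hj'⟩ := h5 i hil
  have : j = x i := by
    obtain ⟨p', hp', h6⟩ := (hx i (x i)).1 rfl
    obtain ⟨s, hs, h7, h8⟩ := hG.dir r hr p' hp'
    have h9 := h4.down i j _ (res_mem_SS (hG.sub r hr)) _ (res_mem_SS (hG.sub s hs)) (h7.res ht ξ) hj'
    have h10 := h4.down i (x i) _ (res_mem_SS (hG.sub p' hp')) _ (res_mem_SS (hG.sub s hs))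
      (h8.res ht ξ) (hAg i hi _ _ h6)
    exact h4.uni i _ _ _ (res_mem_SS (hG.sub s hs)) h9 h10
  rw [← this]
  exact hj

end Pool.Agent.H83.GP
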