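import Pool.Agent.H83.GP.Tpl
import Pool.Agent.H17.GP.RlC

/-!
# MP_66e4cf_lc: the reals of a filter of stems
-/

set_option autoImplicit false
set_option linter.unusedVariables false
set_option linter.unusedSectionVars false

universe u

open Pool.Agent.H17.Omega Pool.Agent.H17.Omega.CTM Pool.Agent.H17.GP Pool.Agent.H19.GP

namespace Pool.Agent.H83.GP

theorem prim_sq : Primrec sq := by
  unfold sq
  refine Primrec.ite (PrimrecRel.comp Primrec.eq Primrec.id (Primrec.const 0)) (Primrec.const []) ?_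
  exact prim_dl.comp (Primrec.snd.comp (Primrec.unpair.comp
    (Primrec.nat_sub.comp Primrec.id (Primrec.const 1))))

theorem prim_slN : Primrec (fun m => (sq m).length) := Primrec.list_length.comp prim_sq

theorem prim_sgN : Primrec₂ (fun m k => (sq m).getD k 0) :=
  (Primrec.list_getD 0).comp (prim_sq.comp Primrec.fst) Primrec.snd

/-- A filter of stems with unbounded lengths. -/
structure FilT (g : Set ℕ) : Prop where
  zero : 0 ∈ g
  dir : ∀ m ∈ g, ∀ n ∈ g, ∃ r ∈ g, gpT.le r m ∧ gpT.le r n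
  len : ∀ B, ∃ m ∈ g, B ≤ gpT.len m

theorem gpT_le_sq {a b : ℕ} (h : gpT.le a b) : sq b <+: sq a := by
  rcases h with rfl | rfl | h
  · exact List.prefix_rfl
  · have : sq 0 = [] := rfl
    rw [this]; exact List.nil_prefix
  · exact h.2.2

theorem gpT_le_cl {a b : ℕ} (h : gpT.le a b) : cl a ⊆ cl b := by
  rcases h with rfl | rfl | h
  · exact subset_rfl
  · have : cl 0 = Set.univ := if_pos (Or.inl rfl)
    rw [this]; exact Set.subset_univ _
  · exact h.2.1

theorem getD_of_prefix {l l' : List ℕ} (h : l <+: l') {k : ℕ} (hk : k < l.length) :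
    l'.getD k 0 = l.getD k 0 := by
  obtain ⟨r, rfl⟩ := h
  rw [List.getD_append _ _ _ _ hk]

open Classical in
/-- the characteristic function of a set of numbers (`0`: element) -/
noncomputable def chi (g : Set ℕ) : ℕ → ℕ := fun m => if m ∈ g then 0 else 1

theorem chi_eq {g : Set ℕ} {m : ℕ} : chi g m = 0 ↔ m ∈ g := by
  unfold chi
  split_ifs with h <;> simp [h]

/-- The sequence of a filter of stems. -/
theorem exists_z {N : Set ZFSet.{u}} (hN : CTM N) {g : Set ℕ} (hg : FilT g) (hgN : chi g ∈ Rl N) :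
    ∃ z ∈ Rl N, ∀ m ∈ g, ∀ k < (sq m).length, (sq m).getD k 0 = z k := by
  classical
  have hex : ∀ k, ∃ m ∈ g, k < (sq m).length := by
    intro k
    obtain ⟨m, hm, h⟩ := hg.len (2 * (k + 1))
    refine ⟨m, hm, ?_⟩
    have : gpT.len m = 2 * (sq m).length := rfl
    omega
  choose m hm hmk using hex
  have huni : ∀ a ∈ g, ∀ b ∈ g, ∀ k, k < (sq a).length → k < (sq b).length →
      (sq a).getD k 0 = (sq b).getD k 0 := by
    intro a ha b hb k hka hkb
    obtain ⟨r, hr, h1, h2⟩ := hg.dir a ha b hb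
    rw [← getD_of_prefix (gpT_le_sq h1) hka, ← getD_of_prefix (gpT_le_sq h2) hkb]
  refine ⟨fun k => (sq (m k)).getD k 0, ?_, fun a ha k hk => huni a ha _ (hm k) k hk (hmk k)⟩
  refine mem_Rl' hN (DR.mk (DN.of (P := fun v j => ∃ a, chi g a = 0 ∧
    (natD (v (Fin.last 0)).1 < (sq a).length ∧ (sq a).getD (natD (v (Fin.last 0)).1) 0 = j)) ?_ ?_))
  · refine Dfn.exN (P := fun v a => chi g a = 0 ∧
      (natD (v 0).1 < (sq a).length ∧ (sq a).getD (natD (v 0).1) 0 = natD (v 1).1)) ?_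
    refine Dfn.and (Dfn.eqN (DN.app (DR.const hgN) (DN.var _)) (DN.const 0)) (Dfn.and
      (Dfn.ltN (DN.var _) (DN.primrec prim_slN (DN.var _))) (Dfn.eqN (DN.primrec₂ prim_sgN (DN.var _)
        (DN.var _)) (DN.var _)))
  · intro v j
    constructor
    · rintro ⟨a, ha, h1, h2⟩
      rw [← h2]
      exact (huni a (chi_eq.1 ha) _ (hm _) _ h1 (hmk _)).symm
    · intro h
      exact ⟨m _, chi_eq.2 (hm _), hmk _, h⟩

/-- the finite sequence `c` can be extended to a point of the clopen set of `m` -/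
def Em (m c : ℕ) : Prop := ∃ y ∈ cl m, Pool.Agent.H17.GP.ini (b2n y) (lenN c) = c

/-- The point of a filter of stems. -/
theorem exists_r {N : Set ZFSet.{u}} (hN : CTM N) (hE : r2 Em ∈ Rl N) {g : Set ℕ} (hg : FilT g)
    (hgN : chi g ∈ Rl N) : ∃ y : ℕ → Bool, b2n y ∈ Rl N ∧ ∀ m ∈ g, y ∈ cl m := by
  classical
  -- a point in the universe
  obtain ⟨y0, hy0⟩ : ∃ y : ℕ → Bool, ∀ m ∈ g, y ∈ cl m := by
    have h1 : (⋂ m : g, cl m.1).Nonempty := by
      haveI : Nonempty g := ⟨⟨0, hg.zero⟩⟩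
      refine IsCompact.nonempty_iInter_of_directed_nonempty_isCompact_isClosed (fun m : g => cl m.1)
        ?_ (fun m => cl_nonempty _) (fun m => (cl_closed _).isCompact) (fun m => cl_closed _)
      intro a b
      obtain ⟨r, hr, h1, h2⟩ := hg.dir a.1 a.2 b.1 b.2
      exact ⟨⟨r, hr⟩, gpT_le_cl h1, gpT_le_cl h2⟩
    obtain ⟨y, hy⟩ := h1
    exact ⟨y, fun m hm => Set.mem_iInter.1 hy ⟨m, hm⟩⟩
  let b : ℕ → ℕ := fun c => if ∀ m, m < lenN c → chi g m = 0 → r2 Em (Nat.pair m c) = 0 then 1 else 0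
  have hr2 : ∀ m c, r2 Em (Nat.pair m c) = 0 ↔ Em m c := by
    intro m c
    unfold r2
    rw [Nat.unpair_pair]
    split_ifs with h <;> simp [h]
  have hb : b ∈ Rl N := by
    refine mem_Rl' hN (DR.mk (DN.ite (P := fun v : Fin 1 → N => ∀ m, m < lenN (natD (v 0).1) →
      chi g m = 0 → r2 Em (Nat.pair m (natD (v 0).1)) = 0) ?_ (DN.const 1) (DN.const 0)))
    refine Dfn.allN (P := fun v m => m < lenN (natD (v 0).1) → chi g m = 0 →
      r2 Em (Nat.pair m (natD (v 0).1)) = 0) ?_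
    refine Dfn.imp (Dfn.ltN (DN.var _) (DN.primrec prim_lenN (DN.var _))) (Dfn.imp
      (Dfn.eqN (DN.app (DR.const hgN) (DN.var _)) (DN.const 0)) (Dfn.eqN (DN.app (DR.const hE)
        (DN.pair (DN.var _) (DN.var _))) (DN.const 0)))
  have hb0 : ∀ c, b c ≠ 0 ↔ ∀ m, m < lenN c → m ∈ g → Em m c := by
    intro c
    show (if ∀ m, m < lenN c → chi g m = 0 → r2 Em (Nat.pair m c) = 0 then 1 else 0) ≠ 0 ↔ _
    simp only [hr2, chi_eq]
    split_ifs with h
    · simpa using h
    · simpa using h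
  obtain ⟨q, hq, -, hqb⟩ := exists_br hN hb (q := b2n y0) 0 (by
    intro n
    rw [hb0, lenN_ini]
    intro m hm hmg
    exact ⟨y0, hy0 m hmg, by rw [lenN_ini]⟩)
  have hE' : ∀ m ∈ g, ∀ n, m < n → ∃ y ∈ cl m, ∀ i < n, b2n y i = q i := by
    intro m hm n hn
    obtain ⟨y, hy, h1⟩ := (hb0 _).1 (hqb n) m (by rwa [lenN_ini]) hm
    rw [lenN_ini] at h1
    exact ⟨y, hy, (ini_inj h1).2⟩
  let y : ℕ → Bool := fun i => decide (q i = 1)
  have hyq : ∀ (y' : ℕ → Bool) i, b2n y' i = q i → y' i = y i := by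
    intro y' i h
    show y' i = decide (q i = 1)
    rw [← h]
    unfold b2n
    cases y' i <;> simp
  have hqy : b2n y = q := by
    funext i
    obtain ⟨y', -, h⟩ := hE' 0 hg.zero (i + 1) (by omega)
    have h1 := h i (by omega)
    rw [← h1]
    unfold b2n
    rw [hyq y' i h1]
  refine ⟨y, by rw [hqy]; exact hq, fun m hm => ?_⟩
  -- `y` is in the closed set
  choose! y' hy' hyi using fun n (hn : m < n) => hE' m hm n hn
  have hlim : Filter.Tendsto (fun n => y' (n + m + 1)) Filter.atTop (nhds y) := by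
    rw [tendsto_pi_nhds]
    intro i
    refine tendsto_const_nhds.congr' ?_
    filter_upwards [Filter.eventually_gt_atTop i] with n hn
    exact (hyq _ i (hyi (n + m + 1) (by omega) i (by omega))).symm
  exact (cl_closed m).mem_of_tendsto hlim (Filter.Eventually.of_forall fun n => hy' _ (by omega))

end Pool.Agent.H83.GP
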