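import Pool.Agent.H83.GP.Fil
import Pool.Agent.H83.GP.Dens

/-!
# MP_66e4cf_lc: the reals added at the step `ξ`: dominating, infinitely often equal, random
-/

set_option autoImplicit false
set_option linter.unusedVariables false
set_option linter.unusedSectionVars false

universe u

open Pool.Agent.H17.Omega Pool.Agent.H17.Omega.CTM Pool.Agent.H17.GP Pool.Agent.H19.GP

namespace Pool.Agent.H83.GP

/-- What is needed at the step `ξ`: `K` is the model before the step, `N` the final model. -/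
structure StepH (M N K : Set ZFSet.{u}) (δ ξ : Ordinal.{u}) (G : Set Cn.{u}) : Prop where
  ctmN : CTM N
  ctmK : CTM K
  gen : Gn gpT M δ G
  lt : ξ < δ
  em : r2 Em ∈ Rl N
  stem : chi (gs gpT G ξ) ∈ Rl N
  names : ∀ x ∈ Rl K, ∃ T ∈ M, IsNm gpT (SS gpT M ξ) T ∧ ValG G ξ T x
  mod : ∀ T ∈ M, IsNm gpT (SS gpT M ξ) T → ∀ L : ℕ, ∃ T1 ∈ M, IsNm gpT (SS gpT M ξ) T1 ∧ AgL T1 T L ∧
    ∀ i < L, ∀ p ∈ SS gpT M ξ, Tr T1 i 0 p
  dfnA : ∀ T ∈ M, IsNm gpT (SS gpT M ξ) T → ∃ X ∈ M, ∀ p ∈ SS gpT M δ,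
    cd p ∈ X ↔ ∃ T1 ∈ (p.f ξ).2, ∃ L, AgL T1 T L
  dfnB : ∀ T ∈ M, IsNm gpT (SS gpT M ξ) T → ∀ B : ℕ, ∃ X ∈ M, ∀ p ∈ SS gpT M δ,
    cd p ∈ X ↔ (B ≤ gpT.len (p.f ξ).1 ∧ ∃ k, B ≤ k ∧ ∃ j, Tr T k j (p.res ξ) ∧ gpT.hit (p.f ξ).1 k j)

namespace StepH

variable {M N K : Set ZFSet.{u}} {δ ξ : Ordinal.{u}} {G : Set Cn.{u}} (h : StepH M N K δ ξ G)

include h

theorem hitB {x : ℕ → ℕ} (hx : x ∈ Rl K) (B : ℕ) : ∃ m ∈ gs gpT G ξ, B ≤ gpT.len m ∧ ∃ k, B ≤ k ∧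
    gpT.hit m k (x k) := by
  obtain ⟨T, hT, hTn, hv⟩ := h.names x hx
  obtain ⟨p, hp, h1, k, hk, j, hj, hj'⟩ := h.gen.meet (h.dfnB T hT hTn B) fun p hp => by
    obtain ⟨q, hq, h1, h2, h3, h4, h5⟩ := exists_ext gpT_ax hp h.lt T hTn B
    exact ⟨q, hq, h1, h3, h5⟩
  refine ⟨(p.f ξ).1, ⟨p, hp, gpT_ax.refl _⟩, h1, k, hk, ?_⟩
  have : j = x k := (hv k j).2 ⟨p, hp, hj⟩
  rwa [← this]

theorem filT : FilT (gs gpT G ξ) where
  zero := gs_zero gpT_ax h.gen ξ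
  dir := fun m hm n hn => gs_dir gpT_ax h.gen hm hn
  len := fun B => by
    have hx : (fun _ : ℕ => 0) ∈ Rl K := mem_Rl' h.ctmK (DR.mk (DN.const 0))
    obtain ⟨m, hm, h1, -⟩ := h.hitB hx B
    exact ⟨m, hm, h1⟩

/-- promises of the reals of `K` are obeyed from some place on -/
theorem obey {x : ℕ → ℕ} (hx : x ∈ Rl K) : ∃ L, ∀ i, L ≤ i → ∃ m ∈ gs gpT G ξ, i < gpT.len m ∧
    gpT.good m i (x i) := by
  obtain ⟨T, hT, hTn, hv⟩ := h.names x hx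
  obtain ⟨q, hq, T1, hT1, L, hAg⟩ := h.gen.meet (h.dfnA T hT hTn) fun p hp =>
    exists_promise gpT_ax hp h.lt T hTn (h.mod T hT hTn)
  refine ⟨L, fun i hi => ?_⟩
  obtain ⟨m, hm, hlen⟩ := h.filT.len (i + 1)
  obtain ⟨m', hm', h1, h2⟩ := obey_gen gpT_ax h.gen hq hT1 hAg hv hm
  have h3 := gpT_ax.len_mono _ _ h1
  exact ⟨m', hm', by omega, h2 i hi (by omega)⟩

theorem dom : ∃ z ∈ Rl N, ∀ x ∈ Rl K, ∃ n, ∀ k, n ≤ k → x k ≤ z k := by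
  obtain ⟨z, hz, hzg⟩ := exists_z h.ctmN h.filT h.stem
  refine ⟨fun k => (z k).unpair.2, mem_Rl' h.ctmN (DR.mk (DN.unpair2 (DN.app (DR.const hz)
    (DN.var _)))), fun x hx => ?_⟩
  have hX : (fun n => x (n / 2)) ∈ Rl K := by
    refine mem_Rl' h.ctmK (DR.mk (DN.app (DR.const hx) ?_))
    exact DN.primrec (F := fun n => n / 2) (Primrec.nat_div.comp Primrec.id (Primrec.const 2)) (DN.var _)
  have hX2 : (fun n => if n % 2 = 0 then 0 else x (n / 2)) ∈ Rl K := by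
    refine mem_Rl' h.ctmK (DR.mk (DN.ite (P := fun v : Fin 1 → K => natD (v 0).1 % 2 = 0) ?_
      (DN.const 0) (DN.app (f := fun _ n => x (n / 2)) (DR.const hX) (DN.var _))))
    exact Dfn.eqN (DN.primrec (F := fun n => n % 2) (Primrec.nat_mod.comp Primrec.id
      (Primrec.const 2)) (DN.var _)) (DN.const 0)
  obtain ⟨L, hL⟩ := h.obey hX2
  refine ⟨L, fun k hk => ?_⟩
  obtain ⟨m, hm, hi, hg⟩ := hL (2 * k + 1) (by omega)
  have h1 : (2 * k + 1) % 2 = 1 := by omega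
  have h2 : (2 * k + 1) / 2 = k := by omega
  have h3 : k < (sq m).length := by
    have : gpT.len m = 2 * (sq m).length := rfl
    omega
  have hg' : (if (2 * k + 1) % 2 = 0 then Disjoint (cl m) (Uk ((2 * k + 1) / 2) _) else
    (if (2 * k + 1) % 2 = 0 then 0 else x ((2 * k + 1) / 2)) ≤ ((sq m).getD ((2 * k + 1) / 2) 0).unpair.2) := hg
  rw [if_neg (by omega), if_neg (by omega), h2, hzg m hm k h3] at hg'
  exact hg'

theorem ioe : ∃ z ∈ Rl N, ∀ x ∈ Rl K, ∀ n, ∃ k, n ≤ k ∧ z k = x k := by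
  obtain ⟨z, hz, hzg⟩ := exists_z h.ctmN h.filT h.stem
  refine ⟨fun k => (z k).unpair.1, mem_Rl' h.ctmN (DR.mk (DN.unpair1 (DN.app (DR.const hz)
    (DN.var _)))), fun x hx n => ?_⟩
  obtain ⟨m, hm, -, k, hk, hkl, hk2⟩ := h.hitB hx n
  refine ⟨k, hk, ?_⟩
  show (z k).unpair.1 = x k
  rw [← hzg m hm k hkl, hk2]

theorem rand : ∃ y : ℕ → Bool, b2n y ∈ Rl N ∧ ∀ w ∈ Rl K, y ∉ Nw w := by
  obtain ⟨y, hy, hyg⟩ := exists_r h.ctmN h.em h.filT h.stem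
  refine ⟨y, hy, fun w hw hyw => ?_⟩
  have hX : (fun n => w (n / 2)) ∈ Rl K := by
    refine mem_Rl' h.ctmK (DR.mk (DN.app (DR.const hw) ?_))
    exact DN.primrec (F := fun n => n / 2) (Primrec.nat_div.comp Primrec.id (Primrec.const 2)) (DN.var _)
  obtain ⟨L, hL⟩ := h.obey hX
  obtain ⟨k, hk, hyk⟩ := hyw L
  obtain ⟨m, hm, hi, hg⟩ := hL (2 * k) (by omega)
  have h2 : (2 * k) / 2 = k := by omega
  have hg' : (if (2 * k) % 2 = 0 then Disjoint (cl m) (Uk ((2 * k) / 2) (w ((2 * k) / 2))) else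
    w ((2 * k) / 2) ≤ ((sq m).getD ((2 * k) / 2) 0).unpair.2) := hg
  rw [if_pos (by omega), h2] at hg'
  exact Set.disjoint_left.1 hg' (hyg m hm) hyk

end StepH

end Pool.Agent.H83.GP
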