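import Pool.Agent.H52.GP.Clo
import Pool.Agent.H83.GP.Step

/-!
# MP_66e4cf_lc: names and definability for the step `ξ`
-/

set_option autoImplicit false
set_option linter.unusedVariables false
set_option linter.unusedSectionVars false

universe u

open Pool.Agent.H17.Omega Pool.Agent.H17.Omega.CTM Pool.Agent.H17.GP Pool.Agent.H52.GX Pool.Agent.H52.GC
  Pool.Agent.H52.GP Pool.Agent.H19.GP

namespace Pool.Agent.H83.GP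

variable {M : Set ZFSet.{u}} (hM : CTM M) {t : Tm} (ht : t.Ax) (hk : t.In M) {δ ξ : Ordinal.{u}}
  (hδ : δ.toZFSet ∈ M) {G : Set Cn.{u}} (hG : Gn t M δ G) (hξ : ξ < δ)

include hM ht hk hδ hG hξ

theorem names_of : ∀ x ∈ Rl (KK t M G ξ), ∃ T ∈ M, IsNm t (SS t M ξ) T ∧ ValG G ξ T x := by
  intro x hx
  have hξM := hM.toZFSet_mem_of_le hξ.le hδ
  have hF := fr_Gr hM ht hk hδ hG hξ.le
  obtain ⟨ν, hν, hn, hv⟩ := hF.exists_seqNm hM.omZ_mem (s := fun n => natZ (x n))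
    (fun n => natZ_mem_omZ _) hx
  refine ⟨ν, hν, ⟨?_, ?_, ?_, ?_⟩, ?_⟩
  · intro z hz
    obtain ⟨n, a, p, ha, hp, rfl⟩ := hn.mem z hz
    obtain ⟨j, rfl⟩ := mem_omZ.1 ha
    obtain ⟨q, hq, rfl⟩ := (mem_PZ hM ht hk hξM).1 hp
    exact ⟨n, j, q, hq, rfl⟩
  · intro i j j' r hr h1 h2
    have h3 : ZFSet.pair (cd r) (cd r) ∈ RZ t M ξ :=
      (pair_mem_RZ hM ht hk hξM).2 ⟨hr, hr, Cn.Le.refl ht r⟩
    exact natZ_inj.1 (hn.uni i _ _ _ _ h1 h2 ⟨cd r, h3, h3⟩)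
  · intro i p hp
    obtain ⟨q, hq, a, ha⟩ := hn.tot i (cd p) ((cd_mem_PZ hM ht hk hξM).2 hp)
    obtain ⟨n, a', p', ha', hp', he⟩ := hn.mem _ ha
    rw [ZFSet.pair_inj, ZFSet.pair_inj] at he
    obtain ⟨j, hj⟩ := mem_omZ.1 ha'
    obtain ⟨q', hq', rfl⟩ := (mem_PZ hM ht hk hξM).1 (hF.po.mem hq).1
    refine ⟨q', hq', ((pair_mem_RZ hM ht hk hξM).1 hq).2.2, j, ?_⟩
    rw [he.1.2, hj] at ha
    exact ha
  · intro i j p hp q hq hle h1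
    exact hn.down i _ _ _ ((pair_mem_RZ hM ht hk hξM).2 ⟨hq, hp, hle⟩) h1
  · intro n j
    have h1 := hv n (natZ j)
    constructor
    · rintro rfl
      obtain ⟨z, ⟨p, hp, rfl⟩, h2⟩ := h1.1 rfl
      refine ⟨p, hp.1, ?_⟩
      rw [res_of_SS hp.2]; exact h2
    · rintro ⟨p, hp, h2⟩
      have h3 := h1.2 ⟨cd (p.res ξ), ⟨_, res_mem_G hM ht hk hδ hG hp hξ.le, rfl⟩, h2⟩
      exact natZ_inj.1 h3

omit hG in
theorem mod_of : ∀ T ∈ M, IsNm t (SS t M ξ) T → ∀ L : ℕ, ∃ T1 ∈ M, IsNm t (SS t M ξ) T1 ∧ AgL T1 T L ∧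
    ∀ i < L, ∀ p ∈ SS t M ξ, Tr T1 i 0 p := by
  intro T hT hTn L
  have hξM := hM.toZFSet_mem_of_le hξ.le hδ
  let TM : M := ⟨T, hT⟩
  obtain ⟨T1, hT1, hT1'⟩ := hM.exists_sep (P := fun z => ∃ w p i j : M, z.1 = ZFSet.pair w.1 p.1 ∧
    w.1 = ZFSet.pair i.1 j.1 ∧ ((L ≤ natD i.1 ∧ z.1 ∈ TM.1) ∨ (natD i.1 < L ∧ j.1 = ∅)))
    (Dfn.ex (Dfn.ex (Dfn.ex (Dfn.ex (Dfn.and (Dfn.isPair (DT.var _) (DT.var _) (DT.var _)) (Dfn.and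
      (Dfn.isPair (DT.var _) (DT.var _) (DT.var _)) (Dfn.or (Dfn.and (Dfn.leN (DN.const _) (DN.var _))
        (Dfn.mem (DT.var _) (DT.const _))) (Dfn.and (Dfn.ltN (DN.var _) (DN.const _))
          (Dfn.isEmpty (DT.var _))))))))))
    (hM.prod_mem (hM.prod_mem hM.omZ_mem hM.omZ_mem) (PZ_mem hM ht hk hξM))
  have key : ∀ (i j : ℕ) (p : Cn.{u}), Tr T1 i j p ↔ (p ∈ SS t M ξ ∧ ((L ≤ i ∧ Tr T i j p) ∨ (i < L ∧ j = 0))) := by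
    intro i j p
    unfold Tr
    rw [hT1']
    constructor
    · rintro ⟨h1, h2, w, q, a, b, h3, h4, h5⟩
      rw [ZFSet.pair_mem_prod] at h1
      have hp := (cd_mem_PZ hM ht hk hξM).1 h1.2
      have h3 : ZFSet.pair (ZFSet.pair (natZ i) (natZ j)) (cd p) = ZFSet.pair w.1 q.1 := h3
      rw [h4, ZFSet.pair_inj, ZFSet.pair_inj] at h3
      rw [← h3.1.1, natD_natZ, ← h3.1.2] at h5
      refine ⟨hp, ?_⟩
      rcases h5 with h5 | ⟨h5, h6⟩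
      · exact Or.inl h5
      · refine Or.inr ⟨h5, ?_⟩
        exact natZ_inj.1 (h6.trans rfl : natZ j = natZ 0)
    · rintro ⟨hp, h1⟩
      have hpM := cd_mem_M hM ht hk hξM hp
      have e1 := hM.pair_mem (hM.natZ_mem_N i) (hM.natZ_mem_N j)
      refine ⟨?_, hM.pair_mem e1 hpM, ⟨_, e1⟩, ⟨_, hpM⟩, nz hM i, nz hM j, rfl, rfl, ?_⟩
      · rw [ZFSet.pair_mem_prod, ZFSet.pair_mem_prod]
        exact ⟨⟨natZ_mem_omZ _, natZ_mem_omZ _⟩, (cd_mem_PZ hM ht hk hξM).2 hp⟩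
      · show (L ≤ natD (natZ.{u} i) ∧ _) ∨ (natD (natZ.{u} i) < L ∧ natZ.{u} j = ∅)
        rw [natD_natZ]
        rcases h1 with h1 | ⟨h1, rfl⟩
        · exact Or.inl h1
        · exact Or.inr ⟨h1, rfl⟩
  refine ⟨T1, hT1, ⟨?_, ?_, ?_, ?_⟩, ?_, ?_⟩
  · intro z hz
    obtain ⟨h1, h2, w, q, a, b, h3, h4, h5⟩ := (hT1' z).1 hz
    have h3 : z = ZFSet.pair w.1 q.1 := h3
    rw [h3, h4, ZFSet.pair_mem_prod, ZFSet.pair_mem_prod] at h1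
    obtain ⟨i, hi⟩ := mem_omZ.1 h1.1.1
    obtain ⟨j, hj⟩ := mem_omZ.1 h1.1.2
    obtain ⟨p, hp, hpq⟩ := (mem_PZ hM ht hk hξM).1 h1.2
    exact ⟨i, j, p, hp, by rw [h3, h4, hi, hj, hpq]⟩
  · intro i j j' r hr h1 h2
    rcases ((key i j r).1 h1).2 with ⟨h3, h4⟩ | ⟨h3, h4⟩
    · rcases ((key i j' r).1 h2).2 with ⟨h5, h6⟩ | ⟨h5, h6⟩
      · exact hTn.uni i j j' r hr h4 h6
      · omega
    · rcases ((key i j' r).1 h2).2 with ⟨h5, h6⟩ | ⟨h5, h6⟩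
      · omega
      · omega
  · intro i p hp
    by_cases hi : i < L
    · exact ⟨p, hp, Cn.Le.refl ht p, 0, (key i 0 p).2 ⟨hp, Or.inr ⟨hi, rfl⟩⟩⟩
    · obtain ⟨q, hq, h1, j, hj⟩ := hTn.tot i p hp
      exact ⟨q, hq, h1, j, (key i j q).2 ⟨hq, Or.inl ⟨by omega, hj⟩⟩⟩
  · intro i j p hp q hq hle h1
    refine (key i j q).2 ⟨hq, ?_⟩
    rcases ((key i j p).1 h1).2 with ⟨h3, h4⟩ | h3
    · exact Or.inl ⟨h3, hTn.down i j p hp q hq hle h4⟩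
    · exact Or.inr h3
  · intro i hi j p h1
    obtain ⟨i', j', p', hp', h2⟩ := hTn.mem _ h1
    rw [ZFSet.pair_inj] at h2
    have := cd_inj h2.2
    subst this
    exact (key i j p).2 ⟨hp', Or.inl ⟨hi, h1⟩⟩
  · intro i hi p hp
    exact (key i 0 p).2 ⟨hp, Or.inr ⟨hi, rfl⟩⟩

omit hG in
theorem dfnA_of : ∀ T ∈ M, IsNm t (SS t M ξ) T → ∃ X ∈ M, ∀ p ∈ SS t M δ,
    cd p ∈ X ↔ ∃ T1 ∈ (p.f ξ).2, ∃ L, AgL T1 T L := by
  intro T hT hTn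
  have hξM := hM.toZFSet_mem_of_le hξ.le hδ
  let TM : M := ⟨T, hT⟩
  let xM : M := ⟨_, hξM⟩
  have hN := NaC.dfn hM
  refine exists_X hM ht hk hδ (Dz := fun z => ∃ a T1 : M, NaC z xM a ∧ T1.1 ∈ a.1 ∧ ∃ L, ∀ x w q i j : M,
    x.1 ∈ TM.1 → x.1 = ZFSet.pair w.1 q.1 → w.1 = ZFSet.pair i.1 j.1 → L ≤ natD i.1 → x.1 ∈ T1.1) ?_ ?_
  · refine Dfn.ex (Dfn.ex (Dfn.and (Dfn.subst3 hN (DT.var _) (DT.const _) (DT.var _)) (Dfn.and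
      (Dfn.mem (DT.var _) (DT.var _)) ?_)))
    refine Dfn.exN (P := fun v L => ∀ x w q i j : M, x.1 ∈ TM.1 → x.1 = ZFSet.pair w.1 q.1 →
      w.1 = ZFSet.pair i.1 j.1 → L ≤ natD i.1 → x.1 ∈ (v 2).1) ?_
    exact Dfn.all (Dfn.all (Dfn.all (Dfn.all (Dfn.all (Dfn.imp (Dfn.mem (DT.var _) (DT.const _))
      (Dfn.imp (Dfn.isPair (DT.var _) (DT.var _) (DT.var _)) (Dfn.imp (Dfn.isPair (DT.var _) (DT.var _)
        (DT.var _)) (Dfn.imp (Dfn.leN (DN.var _) (DN.var _)) (Dfn.mem (DT.var _) (DT.var _))))))))))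
  · intro p hp z hz
    constructor
    · rintro ⟨a, T1, h1, h2, L, h3⟩
      have ha := (naC_iff hM hz (rfl : xM.1 = ξ.toZFSet)).1 h1
      rw [ha] at h2
      refine ⟨T1.1, mem_fs.1 h2, L, fun i hi j q hq => ?_⟩
      have m1 := hM.mem_of_mem hT hq
      have m2 := hM.of_pair_mem m1
      have m3 := hM.of_pair_mem m2.1
      exact h3 ⟨_, m1⟩ ⟨_, m2.1⟩ ⟨_, m2.2⟩ ⟨_, m3.1⟩ ⟨_, m3.2⟩ hq rfl rfl (by
        show L ≤ natD (natZ.{u} i)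
        rw [natD_natZ]; exact hi)
    · rintro ⟨T1, hT1, L, h3⟩
      have hT1M : T1 ∈ M := (Vd_of_mem hp ξ).2 T1 hT1 |>.1
      have haM : fs (p.f ξ).2 ∈ M := fs_mem hM fun T2 hT2 => ((Vd_of_mem hp ξ).2 T2 hT2).1
      refine ⟨⟨_, haM⟩, ⟨T1, hT1M⟩, (naC_iff hM hz rfl).2 rfl, mem_fs.2 hT1, L, ?_⟩
      intro x w q i j hx h4 h5 h6
      obtain ⟨i', j', p', hp', h7⟩ := hTn.mem _ hx
      have h8 : ZFSet.pair w.1 q.1 = ZFSet.pair (ZFSet.pair (natZ i') (natZ j')) (cd p') := h4.symm.trans h7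
      rw [h5, ZFSet.pair_inj, ZFSet.pair_inj] at h8
      rw [h8.1.1, natD_natZ] at h6
      rw [h7]
      refine h3 i' h6 j' p' ?_
      unfold Tr
      rw [← h7]; exact hx

omit hG in
theorem dfnB_of (hh : r3 t.hit ∈ Rl M) : ∀ T ∈ M, IsNm t (SS t M ξ) T → ∀ B : ℕ, ∃ X ∈ M, ∀ p ∈ SS t M δ,
    cd p ∈ X ↔ (B ≤ t.len (p.f ξ).1 ∧ ∃ k, B ≤ k ∧ ∃ j, Tr T k j (p.res ξ) ∧ t.hit (p.f ξ).1 k j) := by
  intro T hT hTn B
  have hξM := hM.toZFSet_mem_of_le hξ.le hδ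
  let TM : M := ⟨T, hT⟩
  let xM : M := ⟨_, hξM⟩
  have hS := StC.dfn hM
  have hR := ResC.dfn hM
  refine exists_X hM ht hk hδ (Dz := fun z => ∃ m z' : M, StC z xM m ∧ ResC z xM z' ∧ (B ≤ t.len (natD m.1) ∧
    ∃ k, B ≤ k ∧ ∃ j, (∃ a b x : M, a.1 = natZ k ∧ b.1 = natZ j ∧ x.1 = ZFSet.pair a.1 b.1 ∧
      ZFSet.pair x.1 z'.1 ∈ TM.1) ∧ r3 t.hit (Nat.pair (natD m.1) (Nat.pair k j)) = 0)) ?_ ?_
  · refine Dfn.ex (Dfn.ex (Dfn.and (Dfn.subst3 hS (DT.var _) (DT.const _) (DT.var _)) (Dfn.and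
      (Dfn.subst3 hR (DT.var _) (DT.const _) (DT.var _)) (Dfn.and (Dfn.leN (DN.const _) (DN.app
        (DR.const hk.len) (DN.var _))) ?_))))
    refine Dfn.exN (P := fun v k => B ≤ k ∧ ∃ j, (∃ a b x : M, a.1 = natZ k ∧ b.1 = natZ j ∧
      x.1 = ZFSet.pair a.1 b.1 ∧ ZFSet.pair x.1 (v 2).1 ∈ TM.1) ∧
        r3 t.hit (Nat.pair (natD (v 1).1) (Nat.pair k j)) = 0) ?_
    refine Dfn.and (Dfn.leN (DN.const _) (DN.var _)) ?_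
    refine Dfn.exN (P := fun v j => (∃ a b x : M, a.1 = natZ (natD (v 3).1) ∧ b.1 = natZ j ∧
      x.1 = ZFSet.pair a.1 b.1 ∧ ZFSet.pair x.1 (v 2).1 ∈ TM.1) ∧
        r3 t.hit (Nat.pair (natD (v 1).1) (Nat.pair (natD (v 3).1) j)) = 0) ?_
    exact Dfn.and (Dfn.ex (Dfn.ex (Dfn.ex (Dfn.and (Dfn.eqNatZ (DT.var _) (DN.var _)) (Dfn.and
      (Dfn.eqNatZ (DT.var _) (DN.var _)) (Dfn.and (Dfn.isPair (DT.var _) (DT.var _) (DT.var _))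
        (Dfn.pairMem (DT.var _) (DT.var _) (DT.const _)))))))) (Dfn.eqN (DN.app (DR.const hh)
          (DN.pair (DN.var _) (DN.pair (DN.var _) (DN.var _)))) (DN.const 0))
  · intro p hp z hz
    constructor
    · rintro ⟨m, z', h1, h2, h3, k, hk', j, ⟨a, b, x, h4, h5, h6, h7⟩, h8⟩
      have hm := (stC_iff hM hz (rfl : xM.1 = ξ.toZFSet)).1 h1
      have hz' := (resC_iff hM hz (rfl : xM.1 = ξ.toZFSet)).1 h2
      rw [hm, natD_natZ] at h3 h8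
      refine ⟨h3, k, hk', j, ?_, r3_eq.1 h8⟩
      rw [h6, h4, h5, hz'] at h7
      exact h7
    · rintro ⟨h3, k, hk', j, h7, h8⟩
      have m1 := hM.of_pair_mem (hM.mem_of_mem hT h7)
      refine ⟨nz hM (p.f ξ).1, ⟨_, m1.2⟩, (stC_iff hM hz rfl).2 rfl, (resC_iff hM hz rfl).2 rfl, ?_⟩
      show B ≤ t.len (natD (natZ.{u} (p.f ξ).1)) ∧ ∃ k, B ≤ k ∧ ∃ j, _ ∧
        r3 t.hit (Nat.pair (natD (natZ.{u} (p.f ξ).1)) (Nat.pair k j)) = 0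
      rw [natD_natZ]
      exact ⟨h3, k, hk', j, ⟨nz hM k, nz hM j, ⟨_, m1.1⟩, rfl, rfl, rfl, h7⟩, r3_eq.2 h8⟩

omit ht hk hG hM hδ hξ in
theorem stepH_of (hM : CTM M) (hk : gpT.In M) (hem : r2 Em ∈ Rl M) {δ ξ : Ordinal.{u}} (hδ : δ.toZFSet ∈ M)
    {G : Set Cn.{u}} (hG : Gn gpT M δ G) (hξ : ξ < δ) :
    StepH M (ExtZ M (cd '' G)) (KK gpT M G ξ) δ ξ G where
  ctmN := (fr_of_gn hM gpT_ax hk hδ hG).ctm
  ctmK := ctm_KK hM gpT_ax hk hδ hG hξ.le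
  gen := hG
  lt := hξ
  em := (fr_of_gn hM gpT_ax hk hδ hG).sub hem
  stem := by
    classical
    have := gs_char hM gpT_ax hk hδ hG hξ
    convert this using 1
    funext m
    unfold chi
    split_ifs <;> rfl
  names := names_of hM gpT_ax hk hδ hG hξ
  mod := mod_of hM gpT_ax hk hδ hξ
  dfnA := dfnA_of hM gpT_ax hk hδ hξ
  dfnB := dfnB_of hM gpT_ax hk hδ hξ hk.hit

end Pool.Agent.H83.GP
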