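import Pool.Agent.H83.GP.Bdd
import Pool.Agent.H19.GP.Sys

/-!
# MP_66e4cf_lc: well-founded relations of the extension embed into well-founded relations of the ground model
-/

set_option autoImplicit false
set_option linter.unusedVariables false
set_option linter.unusedSectionVars false

universe u

open Pool.Agent.H17.Omega Pool.Agent.H17.Omega.CTM Pool.Agent.H17.GP Pool.Agent.H52.GX Pool.Agent.H52.GC
  Pool.Agent.H52.GP Pool.Agent.H19.GP

namespace Pool.Agent.H83.GP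

/-- The ranks of a well-founded relation of the model. -/
theorem exists_ranks {N : Set ZFSet.{u}} (hN : CTM N) {r : ℕ → ℕ} (hr : r ∈ Rl N) (hwf : Wf r) :
    ∃ ρ : ℕ → Ordinal.{u}, seqZ (fun n => (ρ n).toZFSet) ∈ N ∧ (∀ i j, rel r i j → ρ i < ρ j) ∧
      ∀ j, ∀ γ < ρ j, ∃ i, γ = ρ i := by
  classical
  let Rr : N → N → Prop := fun y x => IsNatZ y.1 ∧ IsNatZ x.1 ∧ r (Nat.pair (natD y.1) (natD x.1)) = 0
  have hRr : hN.Dfn (fun v : Fin 2 → N => Rr (v 0) (v 1)) :=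
    Dfn.and (Dfn.isNat (DT.var _)) (Dfn.and (Dfn.isNat (DT.var _)) (Dfn.eqN (DN.app (DR.const hr)
      (DN.pair (DN.var _) (DN.var _))) (DN.const 0)))
  have hnz : ∀ i j : ℕ, Rr (nz hN i) (nz hN j) ↔ rel r i j := by
    intro i j
    show IsNatZ (natZ i) ∧ IsNatZ (natZ j) ∧ r (Nat.pair (natD (natZ i)) (natD (natZ j))) = 0 ↔ _
    rw [natD_natZ, natD_natZ]
    exact ⟨fun h => h.2.2, fun h => ⟨isNatZ_natZ _, isNatZ_natZ _, h⟩⟩
  have wf : WellFounded Rr := Subrelation.wf (r := InvImage (rel r) (fun x : N => natD x.1))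
    (fun {x y} h => h.2.2) (InvImage.wf _ hwf)
  obtain ⟨F, hF, hF'⟩ := recursion (hN := hN) (R := Rr) (𝒢 := fun x r v =>
    ∀ z : N, z.1 ∈ v.1 ↔ ∃ y w, r y w ∧ (z = w ∨ z.1 ∈ w.1)) hRr (by
      show hN.Dfn (fun v : Fin 3 → N => ∀ z : N, z.1 ∈ (v 2).1 ↔ ∃ y w : N,
        (Rr y (v 0) ∧ ZFSet.pair y.1 w.1 ∈ (v 1).1) ∧ (z = w ∨ z.1 ∈ w.1))
      exact Dfn.all (Dfn.iff (Dfn.mem (DT.var _) (DT.var _)) (Dfn.ex (Dfn.ex (Dfn.and (Dfn.and
        (Dfn.subst2 hRr (DT.var _) (DT.var _)) (Dfn.pairMem (DT.var _) (DT.var _) (DT.var _)))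
          (Dfn.or (Dfn.eq (DT.var _) (DT.var _)) (Dfn.mem (DT.var _) (DT.var _)))))))) (by
      intro x
      obtain ⟨e, he, he'⟩ := hN.exists_sep (P := fun y => Rr y x) (Dfn.subst2 hRr (DT.var _) (DT.const _))
        hN.omZ_mem
      refine ⟨e, he, fun y => ?_⟩
      rw [he']
      constructor
      · rintro ⟨_, _, h⟩; exact h
      · intro h
        refine ⟨?_, y.2, h⟩
        obtain ⟨n, hn⟩ := isNatZ_iff.1 h.1
        rw [hn]; exact natZ_mem_omZ n) wf (by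
      intro x rr v v' h1 h2
      exact Subtype.ext (hN.ext' v.2 v'.2 fun z => (h1 z).trans (h2 z).symm)) (by
      intro x h _ _
      have hU := hN.sUnion_mem (hN.sUnion_mem h.2)
      have hW := hN.union_mem hU (hN.sUnion_mem hU)
      obtain ⟨b, hb, hb'⟩ := hN.exists_sep (P := fun z => ∃ y w : N,
        (Rr y x ∧ ZFSet.pair y.1 w.1 ∈ h.1) ∧ (z = w ∨ z.1 ∈ w.1)) (by
          exact (Dfn.ex (Dfn.ex (Dfn.and (Dfn.and
        (Dfn.subst2 hRr (DT.var _) (DT.const _)) (Dfn.pairMem (DT.var _) (DT.var _) (DT.const _)))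
          (Dfn.or (Dfn.eq (DT.var _) (DT.var _)) (Dfn.mem (DT.var _) (DT.var _))))))) hW
      refine ⟨⟨b, hb⟩, fun z => ?_⟩
      show z.1 ∈ b ↔ _
      rw [hb']
      constructor
      · rintro ⟨_, _, h1⟩; exact h1
      · intro h1
        refine ⟨?_, z.2, h1⟩
        obtain ⟨y, w, ⟨h2, h3⟩, h4⟩ := h1
        have h5 := (mem_sUnion_sUnion_pair h3).2
        rw [ZFSet.mem_union]
        rcases h4 with rfl | h4
        · exact Or.inl h5
        · exact Or.inr (ZFSet.mem_sUnion.2 ⟨_, h5, h4⟩))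
  have hF2 : ∀ (j : ℕ) (z : N), z.1 ∈ (F (nz hN j)).1 ↔ ∃ i, rel r i j ∧
      (z = F (nz hN i) ∨ z.1 ∈ (F (nz hN i)).1) := by
    intro j z
    have h1 := hF' (nz hN j) z
    rw [h1]
    constructor
    · rintro ⟨y, w, ⟨h2, rfl⟩, h4⟩
      obtain ⟨n, hn⟩ := isNatZ_iff.1 h2.1
      have : y = nz hN n := Subtype.ext hn
      subst this
      exact ⟨n, (hnz n j).1 h2, h4⟩
    · rintro ⟨i, h2, h3⟩
      exact ⟨nz hN i, _, ⟨(hnz i j).2 h2, rfl⟩, h3⟩
  -- the values are ordinals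
  have hord : ∀ j, (F (nz hN j)).1.IsOrdinal := by
    intro j
    induction j using hwf.induction with
    | _ j ih =>
      have h1 : ∀ z ∈ (F (nz hN j)).1, z.IsOrdinal := by
        intro z hz
        obtain ⟨i, h2, h3 | h3⟩ := (hF2 j ⟨z, hN.mem_of_mem (F _).2 hz⟩).1 hz
        · have := ih i h2
          rw [← h3] at this; exact this
        · exact (ih i h2).mem h3
      refine ⟨?_, ?_⟩
      · intro z hz w hw
        have hzN := hN.mem_of_mem (F (nz hN j)).2 hz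
        obtain ⟨i, h2, h3⟩ := (hF2 j ⟨z, hzN⟩).1 hz
        refine (hF2 j ⟨w, hN.mem_of_mem hzN hw⟩).2 ⟨i, h2, Or.inr ?_⟩
        rcases h3 with h3 | h3
        · rw [← h3]; exact hw
        · exact (ih i h2).mem_trans hw h3
      · intro y z w hy hz hw
        exact (h1 w hw).mem_trans hy hz
  refine ⟨fun n => (F (nz hN n)).1.rank, ?_, ?_, ?_⟩
  · refine seqZ_mem_of_dfn hN (F := fun x y => F x = y) hF (fun n y => ?_) (fun n => ?_)
    · rw [(hord n).toZFSet_rank_eq]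
      constructor
      · rintro rfl; rfl
      · intro h; exact (Subtype.ext h).symm
    · rw [(hord n).toZFSet_rank_eq]; exact (F _).2
  · intro i j h
    exact ZFSet.rank_lt_of_mem ((hF2 j _).2 ⟨i, h, Or.inl rfl⟩)
  · intro j
    induction j using hwf.induction with
    | _ j ih =>
      intro γ hγ
      have h1 : γ.toZFSet ∈ (F (nz hN j)).1 := by
        rw [← (hord j).toZFSet_rank_eq]
        exact Ordinal.toZFSet_mem_toZFSet_iff.2 hγ
      obtain ⟨i, h2, h3 | h3⟩ := (hF2 j ⟨_, hN.mem_of_mem (F _).2 h1⟩).1 h1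
      · refine ⟨i, ?_⟩
        have h4 : γ.toZFSet = (F (nz hN i)).1 := congrArg Subtype.val h3
        show γ = (F (nz hN i)).1.rank
        rw [← h4, Ordinal.rank_toZFSet]
      · refine ih i h2 γ ?_
        have h4 : γ.toZFSet ∈ (F (nz hN i)).1 := h3
        rw [← (hord i).toZFSet_rank_eq] at h4
        exact Ordinal.toZFSet_mem_toZFSet_iff.1 h4

variable {M : Set ZFSet.{u}} {P R : ZFSet.{u}} {g : Set ZFSet.{u}}

theorem wo_of (hM : CTM M) (hF : Fr M P R g) {Sn : M → M → Prop} (hS : Pcs hM P R Sn) {δ : Ordinal.{u}}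
    (hδ : IsOm1 M δ) : ∀ r ∈ Rl (ExtZ M g), Wf r → ∃ r' ∈ Rl M, Wf r' ∧
      ∃ e : ℕ → ℕ, ∀ i j, rel r i j → rel r' (e i) (e j) := by
  classical
  intro r hr hwf
  have hN := hF.ctm
  obtain ⟨ρ, hρN, hρ1, hρ2⟩ := exists_ranks hN hr hwf
  have hδ0 : 0 < δ := by simpa using hδ.omega_lt hM 0
  have hδN : δ.toZFSet ∈ ExtZ M g := hF.sub hδ.mem
  -- the truncated sequence
  let f : ℕ → Ordinal.{u} := fun n => if ρ n < δ then ρ n else 0
  have hfδ : ∀ n, f n < δ := by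
    intro n
    simp only [f]
    split_ifs with h
    · exact h
    · exact hδ0
  have hfN : seqZ (fun n => (f n).toZFSet) ∈ ExtZ M g := by
    let s : ExtZ M g := ⟨_, hρN⟩
    let d : ExtZ M g := ⟨_, hδN⟩
    have h0 : (0 : Ordinal.{u}).toZFSet = ∅ := by
      have := natZ_eq.{u} 0
      simpa [natZ] using this.symm
    refine seqZ_mem_of_dfn hN (F := fun x y => ∃ w : ExtZ M g, ZFSet.pair x.1 w.1 ∈ s.1 ∧
      ((w.1 ∈ d.1 ∧ y = w) ∨ (¬ w.1 ∈ d.1 ∧ y.1 = ∅))) ?_ (fun n y => ?_) (fun n => ?_)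
    · exact Dfn.ex (Dfn.and (Dfn.pairMem (DT.var _) (DT.var _) (DT.const _)) (Dfn.or (Dfn.and
        (Dfn.mem (DT.var _) (DT.const _)) (Dfn.eq (DT.var _) (DT.var _))) (Dfn.and (Dfn.not
          (Dfn.mem (DT.var _) (DT.const _))) (Dfn.isEmpty (DT.var _)))))
    · constructor
      · rintro ⟨w, h1, h2⟩
        have h3 : w.1 = (ρ n).toZFSet := pair_mem_seqZ.1 h1
        simp only [f]
        rcases h2 with ⟨h4, rfl⟩ | ⟨h4, h5⟩
        · rw [h3] at h4
          rw [if_pos (Ordinal.toZFSet_mem_toZFSet_iff.1 h4), h3]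
        · rw [h3] at h4
          rw [if_neg fun h => h4 (Ordinal.toZFSet_mem_toZFSet_iff.2 h), h5, h0]
      · intro h
        refine ⟨⟨_, hN.seqZ_val hρN n⟩, pair_mem_seqZ.2 rfl, ?_⟩
        simp only [f] at h
        by_cases h1 : ρ n < δ
        · rw [if_pos h1] at h
          exact Or.inl ⟨Ordinal.toZFSet_mem_toZFSet_iff.2 h1, Subtype.ext h⟩
        · rw [if_neg h1, h0] at h
          exact Or.inr ⟨fun h2 => h1 (Ordinal.toZFSet_mem_toZFSet_iff.1 h2), h⟩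
    · exact hN.mem_of_mem hδN (Ordinal.toZFSet_mem_toZFSet_iff.2 (hfδ n))
  obtain ⟨β, hβ, hfβ⟩ := bdd_of hM hF hS hδ hfδ hfN
  have hall : ∀ n, ρ n < δ := by
    intro n
    by_contra h
    push Not at h
    have h1 := hδ.succ_lt hM hβ
    obtain ⟨m, hm⟩ := hρ2 n (β + 1) (h1.trans_le h)
    have h2 := hfβ m
    simp only [f] at h2
    rw [← hm, if_pos h1] at h2
    exact absurd h2 (not_le.2 (Order.lt_add_one_iff.2 le_rfl))
  have hle : ∀ n, ρ n ≤ β := by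
    intro n
    have := hfβ n
    simp only [f, if_pos (hall n)] at this
    exact this
  obtain ⟨en, hen, hen'⟩ := hδ.ctb (β + 1) (hδ.succ_lt hM hβ)
  have hex : ∀ n, ∃ k, en k = (ρ n).toZFSet := fun n =>
    hen' _ (Ordinal.toZFSet_mem_toZFSet_iff.2 (Order.lt_add_one_iff.2 (hle n)))
  choose e he using hex
  let r' : ℕ → ℕ := fun k => if en k.unpair.1 ∈ en k.unpair.2 then 0 else 1
  have hr' : ∀ i j, rel r' i j ↔ en i ∈ en j := by
    intro i j
    unfold rel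
    simp only [r', Nat.unpair_pair]
    split_ifs with h <;> simp [h]
  refine ⟨r', ?_, ?_, e, fun i j h => ?_⟩
  · let s : M := ⟨_, hen⟩
    refine mem_Rl' hM (DR.mk (DN.ite (P := fun v : Fin 1 → M => en (natD (v 0).1).unpair.1 ∈
      en (natD (v 0).1).unpair.2) ?_ (DN.const 0) (DN.const 1)))
    have h1 : hM.Dfn (fun v : Fin 1 → M => ∃ a b x y : M, a.1 = natZ (natD (v 0).1).unpair.1 ∧
        b.1 = natZ (natD (v 0).1).unpair.2 ∧ ZFSet.pair a.1 x.1 ∈ s.1 ∧ ZFSet.pair b.1 y.1 ∈ s.1 ∧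
        x.1 ∈ y.1) := by
      exact Dfn.ex (Dfn.ex (Dfn.ex (Dfn.ex (Dfn.and (Dfn.eqNatZ (DT.var _) (DN.unpair1 (DN.var _)))
        (Dfn.and (Dfn.eqNatZ (DT.var _) (DN.unpair2 (DN.var _))) (Dfn.and
          (Dfn.pairMem (DT.var _) (DT.var _) (DT.const _)) (Dfn.and
          (Dfn.pairMem (DT.var _) (DT.var _) (DT.const _)) (Dfn.mem (DT.var _) (DT.var _)))))))))
    refine h1.congr fun v => ?_
    constructor
    · rintro ⟨a, b, x, y, e1, e2, h2, h3, h4⟩
      rw [e1] at h2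
      rw [e2] at h3
      rw [← pair_mem_seqZ.1 h2, ← pair_mem_seqZ.1 h3]
      exact h4
    · intro h2
      exact ⟨nz hM _, nz hM _, ⟨_, hM.seqZ_val hen _⟩, ⟨_, hM.seqZ_val hen _⟩, rfl, rfl,
        pair_mem_seqZ.2 rfl, pair_mem_seqZ.2 rfl, h2⟩
  · refine Subrelation.wf (r := InvImage (· ∈ ·) en) (fun {x y} h => (hr' x y).1 h) (InvImage.wf _ ZFSet.mem_wf)
  · rw [hr', he, he]
    exact Ordinal.toZFSet_mem_toZFSet_iff.2 (hρ1 i j h)

end Pool.Agent.H83.GP
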