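import Pool.Agent.H52.GP.Pcz
import Pool.Agent.H83.GP.StepF
import Pool.Agent.H83.GP.Wo

/-!
# MP_66e4cf_lc: the iteration over a countable transitive model `M` gives a system `Sys N δ K` with `K 0 = M`
-/

set_option autoImplicit false
set_option linter.unusedVariables false
set_option linter.unusedSectionVars false

universe u

open Pool.Agent.H17.Omega Pool.Agent.H17.Omega.CTM Pool.Agent.H17.GP Pool.Agent.H52.GX Pool.Agent.H52.GC
  Pool.Agent.H52.GP Pool.Agent.H19.GP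

namespace Pool.Agent.H83.GP

/-- The parameters of the iteration. -/
def Par : Set (ℕ → ℕ) := {r2 gpT.le, gpT.len, gpT.cap, r3 gpT.good, r3 gpT.hit, r2 Em}

theorem par_countable : Par.Countable := by
  unfold Par
  exact Set.Finite.countable (Set.toFinite _)

theorem exists_sys {M : Set ZFSet.{u}} (hM : CTM M) (hpar : Par ⊆ Rl M) :
    ∃ (N : Set ZFSet.{u}) (δ : Ordinal.{u}) (K : Ordinal.{u} → Set ZFSet.{u}), Sys N δ K ∧ K 0 = M ∧
      ∀ γ : Ordinal.{u}, γ.toZFSet ∈ N → γ.toZFSet ∈ M := by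
  have hk : gpT.In M := ⟨hpar (by simp [Par]), hpar (by simp [Par]), hpar (by simp [Par]),
    hpar (by simp [Par]), hpar (by simp [Par])⟩
  have hem : r2 Em ∈ Rl M := hpar (by simp [Par])
  obtain ⟨δ, hδ⟩ := exists_om1 hM
  obtain ⟨G, hG⟩ := exists_gn hM gpT_ax hk hδ.mem
  have hδ0 : 0 < δ := by simpa using hδ.omega_lt hM 0
  have hK0 : KK gpT M G 0 = M := KK_zero hM gpT_ax hk hδ.mem hG
  have hN : KK gpT M G δ = ExtZ M (cd '' G) := by
    rw [KK, Gr_self hM gpT_ax hk hδ.mem hG]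
  have hreals : ∀ x ∈ Rl (ExtZ M (cd '' G)), ∃ ξ < δ, x ∈ Rl (KK gpT M G ξ) := by
    intro x hx
    obtain ⟨α, hα, h⟩ := closing hM gpT_ax hk hδ hG hM.omZ_mem (s := fun n => natZ (x n))
      (fun n => natZ_mem_omZ _) hx
    exact ⟨α, hα, h⟩
  refine ⟨ExtZ M (cd '' G), δ, KK gpT M G, ?_, hK0,
    fun γ hγ => (fr_of_gn hM gpT_ax hk hδ.mem hG).ord.1 hγ⟩
  exact
    { ctmN := (fr_of_gn hM gpT_ax hk hδ.mem hG).ctm
      pos := hδ0
      ctmK := fun ξ hξ => ctm_KK hM gpT_ax hk hδ.mem hG hξ.le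
      mono := fun ξ η h1 h2 => KK_mono hM gpT_ax hk hδ.mem hG h1 h2.le
      sub := fun ξ hξ => by
        rw [← hN]
        exact KK_mono hM gpT_ax hk hδ.mem hG hξ.le le_rfl
      reals := hreals
      wo := fun r hr hwf => by
        obtain ⟨α, hα, h⟩ := hreals r hr
        obtain ⟨Sn, hS⟩ := exists_pcs hM gpT_ax hk hδ hα
        rw [hK0]
        exact wo_of hM (fr_Gr hM gpT_ax hk hδ.mem hG hα.le) hS hδ r h hwf
      dom := fun ξ hξ => (stepH_of hM hk hem hδ.mem hG hξ).dom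
      ioe := fun ξ hξ => (stepH_of hM hk hem hδ.mem hG hξ).ioe
      rand := fun ξ hξ => (stepH_of hM hk hem hδ.mem hG hξ).rand
      slal := fun b hb s hs hbs => by
        obtain ⟨α, hα, h⟩ := hreals s hs
        obtain ⟨Sn, hS⟩ := exists_pcs hM gpT_ax hk hδ hα
        rw [hK0] at hb ⊢
        exact slal_of hM (fr_Gr hM gpT_ax hk hδ.mem hG hα.le) hS b hb s h hbs }

end Pool.Agent.H83.GP
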