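import Pool.Agent.H83.GP.Defs

/-!
# MP_66e4cf_lc: the concrete template

A stem `m ≠ 0` is a pair (clopen set `cl m ≠ ∅`, finite sequence `sq m`); the stem `0` is `(2^ω, [])`.
A promise `x` is: the random real avoids `Uk k (x (2 k))` and `(z k).unpair.2 ≥ x (2 k + 1)`.

PROOF of `gpT_ax` (`amal`): let `l = (sq m).length`, `μ = lam (cl m) > 0`. Take `l'` large (`l' > l, B`,
`4^l' * (2/3) * 2^(-N) * μ / 8 ≥ B + 1`). For `i ∈ I` let `c_i = cl m \ ⋃ {Uk k (x (2 k)) : x ∈ a i, l ≤ k < l'}`; since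
`(a i).card ≤ cap m ≤ 4^l μ / 8` and `Σ_{k ≥ l} 4^(-k) = (4/3) 4^(-l)`, `lam c_i ≥ (5/6) μ`. The set of the points of
`cl m` that are in at least half of the `c_i` (`i ∈ I`) has measure at least `(2/3) μ` (Markov), there are at most
`2^N` subsets `J` of `I`, so for some `J` with `2 * J.card ≥ I.card` the clopen set `c' = ⋂_{i ∈ J} c_i` (`cl m` if `I = ∅`) has
measure at least `(2/3) 2^(-N) μ`. `s'` extends `sq m` to the length `l'` by
`s' k = pair (v k) (max of the x (2 k + 1), i ∈ J, x ∈ a i)`.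
-/

set_option autoImplicit false
set_option linter.unusedVariables false
set_option linter.unusedSectionVars false

universe u

open Pool.Agent.H17.Omega Pool.Agent.H17.GP Pool.Agent.H19.GP

namespace Pool.Agent.H83.GP

/-- the finite sequence of a stem -/
def sq (m : ℕ) : List ℕ := if m = 0 then [] else dl (m - 1).unpair.2

open Classical in
/-- the clopen set of a stem -/
noncomputable def cl (m : ℕ) : Set (ℕ → Bool) :=
  if m = 0 ∨ Cl (m - 1).unpair.1 = ∅ then Set.univ else Cl (m - 1).unpair.1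

/-- the concrete template -/
noncomputable def gpT : Tm where
  le a b := a = b ∨ b = 0 ∨ ((sq b).length < (sq a).length ∧ cl a ⊆ cl b ∧ sq b <+: sq a)
  len m := 2 * (sq m).length
  cap m := ⌊4 ^ (sq m).length * (lam (cl m)).toReal / 8⌋₊
  good m i j := if i % 2 = 0 then Disjoint (cl m) (Uk (i / 2) j) else
    j ≤ ((sq m).getD (i / 2) 0).unpair.2
  hit m k j := k < (sq m).length ∧ ((sq m).getD k 0).unpair.1 = j

/-! ## Clopen sets -/

section Clopen

open MeasureTheory

theorem dl_encode (s : List ℕ) : dl (Encodable.encode s) = s := by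
  unfold dl
  exact Denumerable.ofNat_encode s

/-- every finite binary sequence has a code -/
theorem exists_dlB (s : List Bool) : ∃ k, dlB k = s := by
  refine ⟨Encodable.encode (s.map fun b => if b then 1 else 0), ?_⟩
  unfold dlB
  rw [dl_encode, List.map_map]
  conv_rhs => rw [← List.map_id s]
  refine List.map_congr_left fun b _ => ?_
  cases b <;> simp

/-- every finite union of basic clopen sets has a code -/
theorem exists_Cl (F : Finset (List Bool)) : ∃ j, Cl j = {y | ∃ s ∈ F, ExtB y s} := by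
  choose c hc using exists_dlB
  refine ⟨Encodable.encode (F.toList.map c), ?_⟩
  ext y
  unfold Cl
  rw [dl_encode]
  simp only [List.mem_map, Finset.mem_toList, Set.mem_ofPred_eq]
  constructor
  · rintro ⟨t, ⟨s, hs, rfl⟩, h⟩
    rw [hc] at h
    exact ⟨s, hs, h⟩
  · rintro ⟨s, hs, h⟩
    exact ⟨c s, ⟨s, hs, rfl⟩, by rw [hc]; exact h⟩

/-- `A` depends only on the first `n` coordinates -/
def Dn (n : ℕ) (A : Set (ℕ → Bool)) : Prop :=
  ∀ y y' : ℕ → Bool, (∀ i < n, y i = y' i) → y ∈ A → y' ∈ A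

theorem Dn.mono {n m : ℕ} {A : Set (ℕ → Bool)} (h : Dn n A) (hm : n ≤ m) : Dn m A :=
  fun y y' h' hy => h y y' (fun i hi => h' i (hi.trans_le hm)) hy

theorem Dn.iff {n : ℕ} {A : Set (ℕ → Bool)} (h : Dn n A) {y y' : ℕ → Bool} (h' : ∀ i < n, y i = y' i) :
    y ∈ A ↔ y' ∈ A :=
  ⟨h y y' h', h y' y fun i hi => (h' i hi).symm⟩

theorem Dn.inter {n m : ℕ} {A B : Set (ℕ → Bool)} (h : Dn n A) (h' : Dn m B) : Dn (max n m) (A ∩ B) :=
  fun y y' h1 hy => ⟨h.mono (le_max_left _ _) y y' h1 hy.1, h'.mono (le_max_right _ _) y y' h1 hy.2⟩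

theorem Dn.diff {n m : ℕ} {A B : Set (ℕ → Bool)} (h : Dn n A) (h' : Dn m B) : Dn (max n m) (A \ B) :=
  fun y y' h1 hy => ⟨h.mono (le_max_left _ _) y y' h1 hy.1,
    fun h2 => hy.2 (h'.mono (le_max_right _ _) y' y (fun i hi => (h1 i hi).symm) h2)⟩

theorem Dn_univ : Dn 0 Set.univ := fun _ _ _ _ => trivial

theorem Dn_empty : Dn 0 ∅ := fun _ _ _ h => h

theorem extB_iff {y : ℕ → Bool} {s : List Bool} :
    ExtB y s ↔ ∀ i (h : i < s.length), y i = s[i] := by
  unfold ExtB
  constructor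
  · intro h i hi
    have : ((List.range s.length).map y)[i]'(by simpa using hi) = s[i] := by
      simp only [h]
    simpa using this
  · intro h
    refine List.ext_getElem (by simp) fun i h1 h2 => ?_
    simpa using h i h2

theorem Dn_ext (s : List Bool) : Dn s.length {y | ExtB y s} := by
  intro y y' h hy
  rw [Set.mem_ofPred_eq, extB_iff] at hy ⊢
  intro i hi
  rw [← h i hi]
  exact hy i hi

theorem Dn_biUnion {ι : Type*} (F : Finset ι) (A : ι → Set (ℕ → Bool)) (h : ∀ i ∈ F, ∃ n, Dn n (A i)) :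
    ∃ n, Dn n (⋃ i ∈ F, A i) := by
  classical
  induction F using Finset.induction_on with
  | empty => exact ⟨0, by simpa using Dn_empty⟩
  | insert i F hi ih =>
    obtain ⟨n, hn⟩ := h i (Finset.mem_insert_self _ _)
    obtain ⟨m, hm⟩ := ih fun j hj => h j (Finset.mem_insert_of_mem hj)
    refine ⟨max n m, ?_⟩
    rw [Finset.set_biUnion_insert]
    rintro y y' h1 (hy | hy)
    · exact Or.inl (hn.mono (le_max_left _ _) y y' h1 hy)
    · exact Or.inr (hm.mono (le_max_right _ _) y y' h1 hy)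

theorem Dn_biInter {ι : Type*} (F : Finset ι) (A : ι → Set (ℕ → Bool)) (h : ∀ i ∈ F, ∃ n, Dn n (A i)) :
    ∃ n, Dn n (⋂ i ∈ F, A i) := by
  classical
  induction F using Finset.induction_on with
  | empty => exact ⟨0, by simpa using Dn_univ⟩
  | insert i F hi ih =>
    obtain ⟨n, hn⟩ := h i (Finset.mem_insert_self _ _)
    obtain ⟨m, hm⟩ := ih fun j hj => h j (Finset.mem_insert_of_mem hj)
    refine ⟨max n m, ?_⟩
    rw [Finset.set_biInter_insert]
    exact hn.inter hm

theorem Cl_eq (j : ℕ) : Cl j = ⋃ t ∈ (dl j).toFinset, {y | ExtB y (dlB t)} := by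
  ext y
  simp [Cl]

theorem Dn_Cl (j : ℕ) : ∃ n, Dn n (Cl j) := by
  rw [Cl_eq]
  exact Dn_biUnion _ _ fun t _ => ⟨_, Dn_ext _⟩

theorem Dn_Uk (k j : ℕ) : ∃ n, Dn n (Uk k j) := by
  by_cases h : lam (Cl j) ≤ (1 / 4) ^ k
  · obtain ⟨n, hn⟩ := Dn_Cl j
    exact ⟨n, fun y y' h1 hy => ⟨h, hn y y' h1 hy.2⟩⟩
  · exact ⟨0, fun y y' h1 hy => absurd hy.1 h⟩

theorem Dn.exists_Cl {n : ℕ} {A : Set (ℕ → Bool)} (h : Dn n A) : ∃ j, Cl j = A := by
  classical
  obtain ⟨j, hj⟩ := Pool.Agent.H83.GP.exists_Cl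
    (((Finset.univ : Finset (Fin n → Bool)).filter fun f => (fun i => if h : i < n then f ⟨i, h⟩ else false) ∈ A).image
      List.ofFn)
  refine ⟨j, hj.trans ?_⟩
  ext y
  simp only [Finset.mem_image, Finset.mem_filter, Finset.mem_univ, true_and, Set.mem_ofPred_eq]
  constructor
  · rintro ⟨s, ⟨f, hf, rfl⟩, hy⟩
    rw [extB_iff] at hy
    refine h _ y (fun i hi => ?_) hf
    simp only [hi, dif_pos]
    have := hy i (by simpa using hi)
    simpa using this.symm
  · intro hy
    refine ⟨_, ⟨fun i => y i, ?_, rfl⟩, ?_⟩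
    · refine h y _ (fun i hi => ?_) hy
      simp [hi]
    · rw [extB_iff]
      intro i hi
      simp

theorem Dn.measurableSet {n : ℕ} {A : Set (ℕ → Bool)} (h : Dn n A) : MeasurableSet A := by
  have : A = (fun (y : ℕ → Bool) (i : Fin n) => y i) ⁻¹' ((fun (y : ℕ → Bool) (i : Fin n) => y i) '' A) := by
    ext y
    constructor
    · exact fun hy => ⟨y, hy, rfl⟩
    · rintro ⟨z, hz, hzy⟩
      exact h z y (fun i hi => congrFun hzy ⟨i, hi⟩) hz
  rw [this]
  have hm : Measurable (fun (y : ℕ → Bool) (i : Fin n) => y i) :=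
    measurable_pi_lambda _ fun i => measurable_pi_apply _
  exact hm (Set.toFinite _).measurableSet

theorem Dn.isClosed {n : ℕ} {A : Set (ℕ → Bool)} (h : Dn n A) : IsClosed A := by
  have : A = (fun (y : ℕ → Bool) (i : Fin n) => y i) ⁻¹' ((fun (y : ℕ → Bool) (i : Fin n) => y i) '' A) := by
    ext y
    constructor
    · exact fun hy => ⟨y, hy, rfl⟩
    · rintro ⟨z, hz, hzy⟩
      exact h z y (fun i hi => congrFun hzy ⟨i, hi⟩) hz
  rw [this]
  have hm : Continuous (fun (y : ℕ → Bool) (i : Fin n) => y i) :=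
    continuous_pi fun i => continuous_apply _
  exact (Set.toFinite _).isClosed.preimage hm

instance coin_prob : IsProbabilityMeasure coin := by
  constructor
  have h : Measure.count (Set.univ : Set Bool) = 2 := by
    rw [Measure.count_univ]
    simp
  show ((2 : ENNReal)⁻¹ • Measure.count : Measure Bool) Set.univ = 1
  rw [Measure.smul_apply, h, smul_eq_mul]
  exact ENNReal.inv_mul_cancel two_ne_zero ENNReal.ofNat_ne_top

instance lam_prob : IsProbabilityMeasure lam := by
  unfold lam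
  infer_instance

theorem coin_singleton (b : Bool) : coin {b} = 2⁻¹ := by
  unfold coin
  simp [Measure.smul_apply]

theorem Dn.pos {n : ℕ} {A : Set (ℕ → Bool)} (h : Dn n A) (hne : A.Nonempty) : 0 < lam A := by
  obtain ⟨x, hx⟩ := hne
  have h1 : Set.pi (Finset.range n : Set ℕ) (fun i => ({x i} : Set Bool)) ⊆ A := by
    intro y hy
    refine h x y (fun i hi => ?_) hx
    have := hy i (by simpa using hi)
    exact (Set.mem_singleton_iff.1 this).symm
  have h2 : lam (Set.pi (Finset.range n : Set ℕ) (fun i => ({x i} : Set Bool))) = (2⁻¹ : ENNReal) ^ n := by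
    unfold lam
    rw [Measure.infinitePi_pi _ (fun i _ => measurableSet_singleton _)]
    simp [coin_singleton]
  refine lt_of_lt_of_le ?_ (measure_mono h1)
  rw [h2]
  exact ENNReal.pow_pos (by simp) n

end Clopen

theorem Dn_cl (m : ℕ) : ∃ n, Dn n (cl m) := by
  unfold cl
  split_ifs
  · exact ⟨0, Dn_univ⟩
  · exact Dn_Cl _

theorem cl_nonempty (m : ℕ) : (cl m).Nonempty := by
  unfold cl
  split_ifs with h
  · exact Set.univ_nonempty
  · push Not at h
    exact h.2

theorem cl_closed (m : ℕ) : IsClosed (cl m) := by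
  obtain ⟨n, hn⟩ := Dn_cl m
  exact hn.isClosed

/-! ## The amalgamation -/

section Amal

open MeasureTheory

theorem lam_real_Uk (k j : ℕ) : lam.real (Uk k j) ≤ (1 / 4) ^ k := by
  have h : lam (Uk k j) ≤ (1 / 4) ^ k := by
    by_cases h : lam (Cl j) ≤ (1 / 4) ^ k
    · exact (measure_mono fun y hy => hy.2).trans h
    · have : Uk k j = ∅ := by
        ext y
        simp only [Uk, Set.mem_ofPred_eq, Set.mem_empty_iff_false, iff_false, not_and]
        exact fun h' => absurd h' h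
      rw [this]
      simp
  unfold Measure.real
  have h2 := ENNReal.toReal_mono (by simp) h
  simpa using h2

/-- the geometric sum -/
theorem geom_le (l l' : ℕ) : ∑ k ∈ Finset.Ico l l', ((1 : ℝ) / 4) ^ k ≤ 4 / 3 * (1 / 4) ^ l := by
  have h := geom_sum_Ico_le_of_lt_one (x := (1 / 4 : ℝ)) (by norm_num) (by norm_num) (m := l) (n := l')
  refine h.trans (le_of_eq ?_)
  norm_num
  ring

/-- removing small sets -/
theorem diff_ge {c : Set (ℕ → Bool)} {μ : ℝ} (hμ : lam.real c = μ) (a : Finset (ℕ → ℕ)) (l l' : ℕ)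
    (ha : (a.card : ℝ) ≤ 4 ^ l * μ / 8) :
    5 / 6 * μ ≤ lam.real (c \ ⋃ x ∈ a, ⋃ k ∈ Finset.Ico l l', Uk k (x (2 * k))) := by
  have h1 : lam.real (⋃ x ∈ a, ⋃ k ∈ Finset.Ico l l', Uk k (x (2 * k))) ≤ μ / 6 := by
    calc lam.real (⋃ x ∈ a, ⋃ k ∈ Finset.Ico l l', Uk k (x (2 * k)))
        ≤ ∑ x ∈ a, lam.real (⋃ k ∈ Finset.Ico l l', Uk k (x (2 * k))) :=
          measureReal_biUnion_finset_le _ _
      _ ≤ ∑ x ∈ a, 4 / 3 * (1 / 4 : ℝ) ^ l := by
          refine Finset.sum_le_sum fun x _ => ?_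
          refine (measureReal_biUnion_finset_le _ _).trans ?_
          exact (Finset.sum_le_sum fun k _ => lam_real_Uk k _).trans (geom_le l l')
      _ = a.card * (4 / 3 * (1 / 4 : ℝ) ^ l) := by rw [Finset.sum_const, nsmul_eq_mul]
      _ ≤ (4 ^ l * μ / 8) * (4 / 3 * (1 / 4 : ℝ) ^ l) :=
          mul_le_mul_of_nonneg_right ha (by positivity)
      _ = μ / 6 * (4 ^ l * (1 / 4) ^ l) := by ring
      _ = μ / 6 := by rw [← mul_pow]; norm_num
  have h2 := le_measureReal_sdiff (μ := lam) (s₁ := c)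
    (s₂ := ⋃ x ∈ a, ⋃ k ∈ Finset.Ico l l', Uk k (x (2 * k))) (measure_ne_top _ _)
  rw [hμ] at h2
  linarith

/-- averaging: a large intersection -/
theorem exists_inter {c : Set (ℕ → Bool)} (hcm : MeasurableSet c) {μ : ℝ} (hμ : lam.real c = μ) (hμ0 : 0 < μ)
    (N : ℕ) (I : Finset ℕ) (hI : I.card ≤ N) (C : ℕ → Set (ℕ → Bool)) (hC : ∀ i ∈ I, MeasurableSet (C i))
    (hCc : ∀ i ∈ I, C i ⊆ c) (h : ∀ i ∈ I, 5 / 6 * μ ≤ lam.real (C i)) :
    ∃ J ⊆ I, I.card ≤ 2 * J.card ∧ 2 / 3 * μ / 2 ^ N ≤ lam.real (c ∩ ⋂ i ∈ J, C i) := by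
  classical
  rcases I.eq_empty_or_nonempty with rfl | hne
  · refine ⟨∅, subset_rfl, by simp, ?_⟩
    simp only [Finset.notMem_empty, Set.iInter_of_empty, Set.iInter_univ, Set.inter_univ, hμ]
    rw [div_le_iff₀ (by positivity)]
    have : (1 : ℝ) ≤ 2 ^ N := one_le_pow₀ (by norm_num)
    nlinarith
  set P : Finset (Finset ℕ) := I.powerset.filter fun J => I.card ≤ 2 * J.card with hP
  have hIpos : (0 : ℝ) < I.card := by exact_mod_cast hne.card_pos
  -- the pointwise inequality
  have hpt : ∀ y, ∑ i ∈ I, (C i).indicator (fun _ => (1 : ℝ)) y ≤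
      I.card / 2 * c.indicator (fun _ => (1 : ℝ)) y +
        I.card / 2 * ∑ J ∈ P, (c ∩ ⋂ i ∈ J, C i).indicator (fun _ => (1 : ℝ)) y := by
    intro y
    have hnn : 0 ≤ ∑ J ∈ P, (c ∩ ⋂ i ∈ J, C i).indicator (fun _ => (1 : ℝ)) y :=
      Finset.sum_nonneg fun J _ => Set.indicator_nonneg (fun _ _ => zero_le_one) _
    have hsum : ∑ i ∈ I, (C i).indicator (fun _ => (1 : ℝ)) y = ((I.filter fun i => y ∈ C i).card : ℝ) := by
      rw [Finset.card_filter]
      push_cast
      exact Finset.sum_congr rfl fun i _ => by simp [Set.indicator_apply]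
    by_cases hyc : y ∈ c
    · rw [hsum, Set.indicator_of_mem hyc]
      by_cases hbig : I.card ≤ 2 * (I.filter fun i => y ∈ C i).card
      · have hJ : (I.filter fun i => y ∈ C i) ∈ P := by
          rw [hP, Finset.mem_filter, Finset.mem_powerset]
          exact ⟨Finset.filter_subset _ _, hbig⟩
        have h1 : (1 : ℝ) ≤ ∑ J ∈ P, (c ∩ ⋂ i ∈ J, C i).indicator (fun _ => (1 : ℝ)) y := by
          refine le_trans ?_ (Finset.single_le_sum
            (f := fun J => (c ∩ ⋂ i ∈ J, C i).indicator (fun _ => (1 : ℝ)) y)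
            (fun J _ => Set.indicator_nonneg (fun _ _ => zero_le_one) _) hJ)
          rw [Set.indicator_of_mem]
          refine ⟨hyc, ?_⟩
          simp only [Set.mem_iInter]
          intro i hi
          exact (Finset.mem_filter.1 hi).2
        have h2 : ((I.filter fun i => y ∈ C i).card : ℝ) ≤ I.card := by
          exact_mod_cast Finset.card_le_card (Finset.filter_subset _ _)
        nlinarith
      · push Not at hbig
        have h2 : (2 : ℝ) * ((I.filter fun i => y ∈ C i).card : ℝ) ≤ I.card := by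
          exact_mod_cast hbig.le
        have h3 : 0 ≤ (I.card : ℝ) / 2 * ∑ J ∈ P, (c ∩ ⋂ i ∈ J, C i).indicator (fun _ => (1 : ℝ)) y :=
          mul_nonneg (by positivity) hnn
        linarith
    · have h0 : ∑ i ∈ I, (C i).indicator (fun _ => (1 : ℝ)) y = 0 := by
        refine Finset.sum_eq_zero fun i hi => ?_
        rw [Set.indicator_of_notMem]
        exact fun h' => hyc (hCc i hi h')
      rw [h0, Set.indicator_of_notMem hyc]
      have h3 : 0 ≤ (I.card : ℝ) / 2 * ∑ J ∈ P, (c ∩ ⋂ i ∈ J, C i).indicator (fun _ => (1 : ℝ)) y :=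
        mul_nonneg (by positivity) hnn
      linarith
  have hint : ∀ A : Set (ℕ → Bool), MeasurableSet A → Integrable (A.indicator fun _ => (1 : ℝ)) lam :=
    fun A hA => (integrable_const (1 : ℝ)).indicator hA
  have hmJ : ∀ J ∈ P, MeasurableSet (c ∩ ⋂ i ∈ J, C i) := by
    intro J hJ
    refine hcm.inter (Finset.measurableSet_biInter _ fun i hi => hC i ?_)
    exact Finset.mem_powerset.1 (Finset.mem_filter.1 hJ).1 hi
  -- integrate
  have hle := integral_mono (μ := lam)
    (integrable_finsetSum I fun i hi => hint (C i) (hC i hi))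
    (((hint c hcm).const_mul (I.card / 2 : ℝ)).add
      ((integrable_finsetSum P fun J hJ => hint _ (hmJ J hJ)).const_mul (I.card / 2 : ℝ))) hpt
  simp only [Pi.add_apply] at hle
  rw [integral_finsetSum I (fun i hi => hint (C i) (hC i hi)),
    integral_add ((hint c hcm).const_mul (I.card / 2 : ℝ))
      ((integrable_finsetSum P fun J hJ => hint _ (hmJ J hJ)).const_mul (I.card / 2 : ℝ)),
    integral_const_mul, integral_const_mul, integral_finsetSum P (fun J hJ => hint _ (hmJ J hJ)),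
    integral_indicator_const (1 : ℝ) hcm] at hle
  have e1 : ∑ i ∈ I, ∫ a, (C i).indicator (fun _ => (1 : ℝ)) a ∂lam = ∑ i ∈ I, lam.real (C i) :=
    Finset.sum_congr rfl fun i hi => by rw [integral_indicator_const (1 : ℝ) (hC i hi)]; simp
  have e2 : ∑ J ∈ P, ∫ a, (c ∩ ⋂ i ∈ J, C i).indicator (fun _ => (1 : ℝ)) a ∂lam =
      ∑ J ∈ P, lam.real (c ∩ ⋂ i ∈ J, C i) :=
    Finset.sum_congr rfl fun J hJ => by rw [integral_indicator_const (1 : ℝ) (hmJ J hJ)]; simp
  rw [e1, e2, hμ] at hle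
  have hlow : (I.card : ℝ) * (5 / 6 * μ) ≤ ∑ i ∈ I, lam.real (C i) := by
    rw [← nsmul_eq_mul]
    exact Finset.card_nsmul_le_sum _ _ _ h
  simp only [smul_eq_mul, mul_one] at hle
  have hS : 2 / 3 * μ ≤ ∑ J ∈ P, lam.real (c ∩ ⋂ i ∈ J, C i) := by
    have h4 : (I.card : ℝ) * (2 / 3 * μ) ≤ I.card * ∑ J ∈ P, lam.real (c ∩ ⋂ i ∈ J, C i) := by
      nlinarith
    exact le_of_mul_le_mul_left h4 hIpos
  by_contra hcon
  push Not at hcon
  have hPc : (P.card : ℝ) ≤ 2 ^ N := by
    have h5 : P.card ≤ 2 ^ I.card := by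
      rw [← Finset.card_powerset]
      exact Finset.card_le_card (Finset.filter_subset _ _)
    have h6 : 2 ^ I.card ≤ 2 ^ N := Nat.pow_le_pow_right (by norm_num) hI
    exact_mod_cast h5.trans h6
  have hPne : P.Nonempty := ⟨I, by
    rw [hP, Finset.mem_filter, Finset.mem_powerset]
    exact ⟨subset_rfl, by omega⟩⟩
  have hlt : ∑ J ∈ P, lam.real (c ∩ ⋂ i ∈ J, C i) < ∑ J ∈ P, 2 / 3 * μ / 2 ^ N := by
    refine Finset.sum_lt_sum_of_nonempty hPne fun J hJ => ?_
    have := Finset.mem_filter.1 hJ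
    exact hcon J (Finset.mem_powerset.1 this.1) this.2
  rw [Finset.sum_const, nsmul_eq_mul] at hlt
  have h7 : (P.card : ℝ) * (2 / 3 * μ / 2 ^ N) ≤ 2 ^ N * (2 / 3 * μ / 2 ^ N) :=
    mul_le_mul_of_nonneg_right hPc (by positivity)
  have h8 : (2 : ℝ) ^ N * (2 / 3 * μ / 2 ^ N) = 2 / 3 * μ := by
    field_simp
  linarith

end Amal

theorem sq_zero : sq 0 = [] := by simp [sq]

theorem cl_zero : cl 0 = Set.univ := by simp [cl]

theorem Uk_zero (k : ℕ) : Uk k 0 = ∅ := by
  ext y
  simp only [Uk, Cl, Set.mem_ofPred_eq, Set.mem_empty_iff_false, iff_false, not_and]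
  rintro - ⟨t, ht, -⟩
  have : dl 0 = [] := by
    have h := dl_encode []
    simpa using h
  rw [this] at ht
  simp at ht

theorem gpT_le_trans (a b c : ℕ) (h1 : gpT.le a b) (h2 : gpT.le b c) : gpT.le a c := by
  rcases h1 with rfl | rfl | ⟨h1, h1', h1''⟩
  · exact h2
  · rcases h2 with rfl | rfl | ⟨h2, -, -⟩
    · exact Or.inr (Or.inl rfl)
    · exact Or.inr (Or.inl rfl)
    · rw [sq_zero] at h2
      simp at h2
  · rcases h2 with rfl | rfl | ⟨h2, h2', h2''⟩
    · exact Or.inr (Or.inr ⟨h1, h1', h1''⟩)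
    · exact Or.inr (Or.inl rfl)
    · exact Or.inr (Or.inr ⟨h2.trans h1, h1'.trans h2', h2''.trans h1''⟩)

theorem gpT_le_anti (a b : ℕ) (h1 : gpT.le a b) (h2 : gpT.le b a) : a = b := by
  rcases h1 with rfl | rfl | ⟨h1, -, -⟩
  · rfl
  · rcases h2 with rfl | rfl | ⟨h2, -, -⟩
    · rfl
    · rfl
    · rw [sq_zero] at h2
      simp at h2
  · rcases h2 with rfl | rfl | ⟨h2, -, -⟩
    · rfl
    · rw [sq_zero] at h1
      simp at h1
    · omega

theorem getD_prefix {s t : List ℕ} (h : s <+: t) {i : ℕ} (hi : i < s.length) : t.getD i 0 = s.getD i 0 := by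
  obtain ⟨r, rfl⟩ := h
  rw [List.getD_append _ _ _ _ hi]

theorem gpT_amal (m N B : ℕ) : ∃ L, ∀ (I : Finset ℕ) (a : ℕ → Finset (ℕ → ℕ)) (v : ℕ → ℕ), I.card ≤ N →
    (∀ i ∈ I, (a i).card ≤ gpT.cap m) → (∀ i ∈ I, ∀ x ∈ a i, ∀ k < gpT.len m, gpT.good m k (x k)) →
    ∃ J ⊆ I, I.card ≤ 2 * J.card ∧ ∃ m', gpT.le m' m ∧ B ≤ gpT.len m' ∧ gpT.len m' ≤ L ∧ B ≤ gpT.cap m' ∧
      (∀ i ∈ J, ∀ x ∈ a i, ∀ k < gpT.len m', gpT.good m' k (x k)) ∧
      ∃ k, B ≤ k ∧ k < L ∧ gpT.hit m' k (v k) := by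
  classical
  obtain ⟨n0, hn0⟩ := Dn_cl m
  set l := (sq m).length with hl
  set μ := lam.real (cl m) with hμ
  have hμ0 : 0 < μ := by
    rw [hμ, MeasureTheory.Measure.real]
    exact ENNReal.toReal_pos (hn0.pos (cl_nonempty m)).ne' (MeasureTheory.measure_ne_top _ _)
  obtain ⟨e, he⟩ := pow_unbounded_of_one_lt ((B + 1) * 8 / (2 / 3 * μ / 2 ^ N)) (by norm_num : (1 : ℝ) < 4)
  set l' := l + B + 1 + e with hl'
  have hbig : (B + 1 : ℝ) ≤ 4 ^ l' * (2 / 3 * μ / 2 ^ N) / 8 := by
    have h0 : (0 : ℝ) < 2 / 3 * μ / 2 ^ N := by positivity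
    have h1 : (4 : ℝ) ^ e ≤ 4 ^ l' := pow_le_pow_right₀ (by norm_num) (by omega)
    have h2 := he.le.trans h1
    rw [div_le_iff₀ h0] at h2
    linarith
  refine ⟨2 * l', fun I a v hI hcap hgood => ?_⟩
  -- the sets `c_i`
  set C : ℕ → Set (ℕ → Bool) := fun i => cl m \ ⋃ x ∈ a i, ⋃ k ∈ Finset.Ico l l', Uk k (x (2 * k)) with hCdef
  have hDC : ∀ i, ∃ n, Dn n (C i) := by
    intro i
    obtain ⟨n1, hn1⟩ := Dn_biUnion (a i) (fun x => ⋃ k ∈ Finset.Ico l l', Uk k (x (2 * k)))
      (fun x _ => Dn_biUnion _ _ fun k _ => Dn_Uk _ _)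
    exact ⟨_, hn0.diff hn1⟩
  have hcapR : ∀ i ∈ I, ((a i).card : ℝ) ≤ 4 ^ l * μ / 8 := by
    intro i hi
    have h1 : (a i).card ≤ ⌊4 ^ l * μ / 8⌋₊ := hcap i hi
    exact (Nat.le_floor_iff (by positivity)).1 h1
  obtain ⟨J, hJI, hJc, hJm⟩ := exists_inter (hn0.measurableSet) hμ.symm hμ0 N I hI C
    (fun i _ => (hDC i).choose_spec.measurableSet) (fun i _ => Set.sdiff_subset)
    (fun i hi => diff_ge hμ.symm (a i) l l' (hcapR i hi))
  obtain ⟨n2, hn2⟩ := Dn_biInter J C fun i _ => hDC i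
  have hDc := hn0.inter hn2
  set c' := cl m ∩ ⋂ i ∈ J, C i with hc'
  obtain ⟨jc, hjc⟩ := hDc.exists_Cl
  -- the sequence
  set w : ℕ → ℕ := fun k => Nat.pair (v k) ((J.biUnion a).sup fun x => x (2 * k + 1)) with hw
  set s' : List ℕ := sq m ++ (List.range (l' - l)).map fun k => w (l + k) with hs'
  have hs'len : s'.length = l' := by
    rw [hs', List.length_append, List.length_map, List.length_range, ← hl]
    omega
  have hs'w : ∀ k, l ≤ k → k < l' → s'.getD k 0 = w k := by
    intro k h1 h2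
    rw [hs', List.getD_append_right _ _ _ _ (by rw [← hl]; exact h1), ← hl]
    rw [List.getD_eq_getElem _ _ (by rw [List.length_map, List.length_range]; omega)]
    simp only [List.getElem_map, List.getElem_range]
    congr 1
    omega
  set m' := Nat.pair jc (Encodable.encode s') + 1 with hm'
  have hsq : sq m' = s' := by
    rw [hm']
    unfold sq
    rw [if_neg (by omega)]
    simp only [Nat.add_sub_cancel, Nat.unpair_pair]
    exact dl_encode s'
  have hc'pos : 0 < lam.real c' := lt_of_lt_of_le (by positivity) hJm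
  have hc'ne : c' ≠ ∅ := by
    intro h
    rw [h] at hc'pos
    simp at hc'pos
  have hcl : cl m' = c' := by
    rw [hm']
    unfold cl
    simp only [Nat.add_sub_cancel, Nat.unpair_pair, hjc]
    rw [if_neg]
    push Not
    exact ⟨by omega, Set.nonempty_iff_ne_empty.2 hc'ne⟩
  have hlen' : gpT.len m' = 2 * l' := by
    show 2 * (sq m').length = 2 * l'
    rw [hsq, hs'len]
  have hpre : sq m <+: sq m' := by
    rw [hsq, hs']
    exact List.prefix_append _ _
  have hsub : cl m' ⊆ cl m := by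
    rw [hcl]
    exact Set.inter_subset_left
  refine ⟨J, hJI, hJc, m', ?_, ?_, hlen'.le, ?_, ?_, ?_⟩
  · refine Or.inr (Or.inr ⟨?_, hsub, hpre⟩)
    rw [hsq, hs'len, ← hl]
    omega
  · rw [hlen']
    omega
  · show B ≤ ⌊4 ^ (sq m').length * (lam (cl m')).toReal / 8⌋₊
    rw [hsq, hs'len, hcl, Nat.le_floor_iff (by positivity)]
    have h1 : (4 : ℝ) ^ l' * (2 / 3 * μ / 2 ^ N) ≤ 4 ^ l' * lam.real c' :=
      mul_le_mul_of_nonneg_left hJm (by positivity)
    have h2 : (4 : ℝ) ^ l' * lam.real c' = 4 ^ l' * (lam c').toReal := rfl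
    linarith
  · intro i hi x hx k hk
    rw [hlen'] at hk
    have hg0 : k < 2 * l → gpT.good m k (x k) := fun h => hgood i (hJI hi) x hx k h
    by_cases hpar : k % 2 = 0
    · show if k % 2 = 0 then _ else _
      rw [if_pos hpar]
      by_cases hkl : k < 2 * l
      · have h1 := hg0 hkl
        change (if k % 2 = 0 then _ else _) at h1
        rw [if_pos hpar] at h1
        exact h1.mono_left hsub
      · rw [hcl]
        refine Set.disjoint_left.2 fun y hy hy' => ?_
        have h2 := hy.2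
        simp only [Set.mem_iInter] at h2
        refine (h2 i hi).2 ?_
        simp only [Set.mem_iUnion]
        refine ⟨x, hx, k / 2, Finset.mem_Ico.2 ⟨by omega, by omega⟩, ?_⟩
        have h3 : 2 * (k / 2) = k := by omega
        rw [h3]
        exact hy'
    · show if k % 2 = 0 then _ else _
      rw [if_neg hpar]
      by_cases hkl : k < 2 * l
      · have h1 := hg0 hkl
        change (if k % 2 = 0 then _ else _) at h1
        rw [if_neg hpar] at h1
        rw [getD_prefix hpre (by rw [← hl]; omega)]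
        exact h1
      · rw [hsq, hs'w (k / 2) (by omega) (by omega), hw]
        simp only [Nat.unpair_pair]
        have h3 : 2 * (k / 2) + 1 = k := by omega
        have h4 := Finset.le_sup (f := fun x : ℕ → ℕ => x (2 * (k / 2) + 1)) (Finset.mem_biUnion.2 ⟨i, hi, hx⟩)
        rw [h3] at h4 ⊢
        exact h4
  · refine ⟨max l B, le_max_right _ _, by omega, ?_, ?_⟩
    · rw [hsq, hs'len]
      omega
    · rw [hsq, hs'w (max l B) (le_max_left _ _) (by omega), hw]
      simp only [Nat.unpair_pair]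

theorem gpT_ax : gpT.Ax where
  refl m := Or.inl rfl
  trans := gpT_le_trans
  anti := gpT_le_anti
  top m := Or.inr (Or.inl rfl)
  cap0 := by
    show ⌊4 ^ (sq 0).length * (lam (cl 0)).toReal / 8⌋₊ = 0
    rw [sq_zero, cl_zero, Nat.floor_eq_zero]
    simp
    norm_num
  len_mono a b h := by
    show 2 * (sq b).length ≤ 2 * (sq a).length
    rcases h with rfl | rfl | ⟨h, -, -⟩
    · exact le_rfl
    · rw [sq_zero]
      simp
    · omega
  good_mono a b h i hi j hj := by
    rcases h with rfl | rfl | ⟨h1, h2, h3⟩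
    · exact hj
    · exfalso
      change i < 2 * (sq 0).length at hi
      rw [sq_zero] at hi
      simp at hi
    · change i < 2 * (sq b).length at hi
      change (if i % 2 = 0 then _ else _) at hj
      show if i % 2 = 0 then _ else _
      split_ifs at hj ⊢ with hp
      · exact hj.mono_left h2
      · rw [getD_prefix h3 (by omega)]
        exact hj
  good0 m i := by
    show if i % 2 = 0 then _ else _
    split_ifs with hp
    · rw [Uk_zero]
      exact Set.disjoint_empty _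
    · exact Nat.zero_le _
  amal := gpT_amal

end Pool.Agent.H83.GP
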